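import Pool.Agent.Webs.Wave

/-!
The augmentation lemma: adding one terminal vertex to a warp.
-/

universe u

namespace Pool.Webs

variable {V : Type u}

section Bip

variable (N : V → V → Prop) (A Y : Set V) (y : V)

/-- `f` matches every vertex outside `A`, except possibly `y`, to a neighbour outside `Y`. -/
structure PMatch (f : V → V) : Prop where
  nb : ∀ v, v ∉ A → v ≠ y → N v (f v)
  out : ∀ v, v ∉ A → v ≠ y → f v ∉ Y
  inj : ∀ u v, u ∉ A → v ∉ A → u ≠ y → v ≠ y → f u = f v → u = v

/-- Alternating walks of length `n` from `y` to `l`. -/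
def AWalk (f : V → V) : ℕ → V → Prop
  | 0, l => l = y
  | n + 1, l => ∃ l', AWalk f n l' ∧ l ∉ A ∧ l ≠ y ∧ N l' (f l)

variable {N A Y y}

theorem AWalk.update [DecidableEq V] {f : V → V} {l r : V} :
    ∀ (n : ℕ) (l' : V), AWalk N A y f n l' →
      (∃ k ≤ n, AWalk N A y f k l) ∨ AWalk N A y (Function.update f l r) n l' := by
  intro n
  induction n with
  | zero => exact fun l' h => Or.inr h
  | succ n ih =>
    rintro l' ⟨l2, h2, hA, hy, hN⟩
    rcases ih l2 h2 with ⟨k, hk, h⟩ | h
    · exact Or.inl ⟨k, by omega, h⟩
    · by_cases hl : l' = l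
      · subst hl
        exact Or.inl ⟨n + 1, le_rfl, l2, h2, hA, hy, hN⟩
      · refine Or.inr ⟨l2, h, hA, hy, ?_⟩
        rw [Function.update_of_ne hl]
        exact hN

/-- A full matching. -/
structure FMatch (N : V → V → Prop) (A Y : Set V) (f : V → V) : Prop where
  nb : ∀ v, v ∉ A → N v (f v)
  out : ∀ v, v ∉ A → f v ∉ Y
  inj : ∀ u v, u ∉ A → v ∉ A → f u = f v → u = v

theorem augment (g : V → V) : ∀ (n : ℕ) (f : V → V) (l r : V), PMatch N A Y y f →
    {v | f v ≠ g v}.Finite → AWalk N A y f n l → N l r → r ∉ Y →
    (∀ v, v ∉ A → v ≠ y → f v ≠ r) →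
    ∃ f', FMatch N A Y f' ∧ {v | f' v ≠ g v}.Finite := by
  classical
  have hfin : ∀ (f : V → V) (l r : V), {v | f v ≠ g v}.Finite →
      {v | Function.update f l r v ≠ g v}.Finite := by
    intro f l r h
    refine (h.insert l).subset ?_
    intro v hv
    by_cases hvl : v = l
    · exact Or.inl hvl
    · right
      simp only [Set.mem_ofPred_eq, Function.update_of_ne hvl] at hv
      exact hv
  intro n
  induction n using Nat.strong_induction_on with
  | _ n ih =>
    intro f l r hf hff hw hN hrY hr
    cases n with
    | zero =>
      simp only [AWalk] at hw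
      subst hw
      refine ⟨Function.update f l r, ⟨?_, ?_, ?_⟩, hfin f l r hff⟩
      · intro v hvA
        by_cases hv : v = l
        · subst hv; rw [Function.update_self]; exact hN
        · rw [Function.update_of_ne hv]; exact hf.nb v hvA hv
      · intro v hvA
        by_cases hv : v = l
        · subst hv; rw [Function.update_self]; exact hrY
        · rw [Function.update_of_ne hv]; exact hf.out v hvA hv
      · intro u v huA hvA huv
        by_cases hu : u = l
        · by_cases hv : v = l
          · rw [hu, hv]
          · rw [hu, Function.update_self, Function.update_of_ne hv] at huv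
            exact absurd huv.symm (hr v hvA hv)
        · by_cases hv : v = l
          · rw [hv, Function.update_self, Function.update_of_ne hu] at huv
            exact absurd huv (hr u huA hu)
          · rw [Function.update_of_ne hu, Function.update_of_ne hv] at huv
            exact hf.inj u v huA hvA hu hv huv
    | succ n =>
      obtain ⟨l1, hw1, hlA, hly, hN1⟩ := hw
      rcases AWalk.update (l := l) (r := r) n l1 hw1 with ⟨k, hk, h⟩ | h
      · exact ih k (by omega) f l r hf hff h hN hrY hr
      · refine ih n (by omega) (Function.update f l r) l1 (f l) ?_ (hfin f l r hff) h hN1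
          (hf.out l hlA hly) ?_
        · constructor
          · intro v hvA hvy
            by_cases hv : v = l
            · subst hv; rw [Function.update_self]; exact hN
            · rw [Function.update_of_ne hv]; exact hf.nb v hvA hvy
          · intro v hvA hvy
            by_cases hv : v = l
            · subst hv; rw [Function.update_self]; exact hrY
            · rw [Function.update_of_ne hv]; exact hf.out v hvA hvy
          · intro u v huA hvA huy hvy huv
            by_cases hu : u = l
            · by_cases hv : v = l
              · rw [hu, hv]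
              · rw [hu, Function.update_self, Function.update_of_ne hv] at huv
                exact absurd huv.symm (hr v hvA hvy)
            · by_cases hv : v = l
              · rw [hv, Function.update_self, Function.update_of_ne hu] at huv
                exact absurd huv (hr u huA huy)
              · rw [Function.update_of_ne hu, Function.update_of_ne hv] at huv
                exact hf.inj u v huA hvA huy hvy huv
        · intro v hvA hvy
          by_cases hv : v = l
          · subst hv; rw [Function.update_self]; exact (hr v hvA hvy).symm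
          · rw [Function.update_of_ne hv]
            exact fun h => hv (hf.inj v l hvA hlA hvy hly h)

end Bip

section

variable {E : V → V → Prop} {A B X D : Set V} {m : V → V} {y : V}

theorem FMatch.chains {N : V → V → Prop} {Y : Set V} {f : V → V} (hf : FMatch N A Y f) :
    ∀ (i j : ℕ) (t t' : V), t ∈ Y → t' ∈ Y → (∀ k < i, f^[k] t ∉ A) → (∀ k < j, f^[k] t' ∉ A) →
      f^[i] t = f^[j] t' → i = j ∧ t = t' := by
  intro i
  induction i with
  | zero =>
    intro j t t' ht _ _ hj h
    cases j with
    | zero => exact ⟨rfl, h⟩
    | succ j =>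
      rw [Function.iterate_succ_apply'] at h
      exact absurd (h ▸ ht) (hf.out _ (hj j (by omega)))
  | succ i ih =>
    intro j t t' ht ht' hi hj h
    cases j with
    | zero =>
      rw [Function.iterate_succ_apply'] at h
      exact absurd (h ▸ ht' : f (f^[i] t) ∈ Y) (hf.out _ (hi i (by omega)))
    | succ j =>
      rw [Function.iterate_succ_apply', Function.iterate_succ_apply'] at h
      have h' := hf.inj _ _ (hi i (by omega)) (hj j (by omega)) h
      obtain ⟨h1, h2⟩ := ih j t t' ht ht' (fun k hk => hi k (by omega))
        (fun k hk => hj k (by omega)) h'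
      exact ⟨by omega, h2⟩

/-- The augmentation lemma. -/
theorem IsWarp.aug (h : IsWarp E A D m) (hX : Disjoint D X) (hyD : y ∉ D) (hyX : y ∉ X) :
    (∃ D1 m1, IsWarp E A D1 m1 ∧ Disjoint D1 X ∧ insert y (ter A D m) ⊆ ter A D1 m1) ∨
    (∃ D2, D2 ⊆ D ∧ IsWarp E A D2 m ∧
      A ⊆ RF E (insert y (ter A D m)) (ter A D2 m ∪ X)) := by
  classical
  set Y : Set V := insert y (ter A D m) with hY
  by_cases hyA : y ∈ A
  · -- add the trivial path
    left
    refine ⟨insert y D, m, ?_, ?_, ?_⟩
    · have hne : ∀ v ∈ insert y D, v ∉ A → v ∈ D := by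
        rintro v (rfl | hv) hvA
        · exact absurd hyA hvA
        · exact hv
      constructor
      · intro v hv hvA
        exact Or.inr (h.mem v (hne v hv hvA) hvA)
      · intro v hv hvA
        exact h.edge v (hne v hv hvA) hvA
      · intro u hu v hv huA hvA huv
        exact h.inj u (hne u hu huA) v (hne v hv hvA) huA hvA huv
      · rintro v (rfl | hv)
        · exact ⟨0, hyA⟩
        · exact h.fin v hv
    · rw [Set.disjoint_left]
      rintro v (rfl | hv) hx
      · exact hyX hx
      · exact Set.disjoint_left.1 hX hv hx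
    · rintro v (rfl | hv)
      · refine ⟨Or.inl rfl, ?_⟩
        rintro u (rfl | hu) huA
        · exact absurd hyA huA
        · rintro rfl
          exact hyD (h.mem u hu huA)
      · refine ⟨Or.inr hv.1, ?_⟩
        rintro u (rfl | hu) huA
        · exact absurd hyA huA
        · exact hv.2 u hu huA
  -- the main case
  set N : V → V → Prop := fun v u => u = v ∨ (E u v ∧ u ∉ X) with hN
  set mb : V → V := fun v => if v ∈ D then m v else v with hmb
  have e1 : ∀ v ∈ D, mb v = m v := fun v hv => by simp only [hmb, if_pos hv]
  have e2 : ∀ v, v ∉ D → mb v = v := fun v hv => by simp only [hmb, if_neg hv]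
  have hdX : ∀ v ∈ D, v ∉ X := fun v hv => Set.disjoint_left.1 hX hv
  have hpm : PMatch N A Y y mb := by
    constructor
    · intro v hvA _
      by_cases hv : v ∈ D
      · rw [e1 v hv]; exact Or.inr ⟨h.edge v hv hvA, hdX _ (h.mem v hv hvA)⟩
      · rw [e2 v hv]; exact Or.inl rfl
    · intro v hvA hvy
      by_cases hv : v ∈ D
      · rw [e1 v hv]
        rintro (h' | h')
        · exact hyD (h' ▸ h.mem v hv hvA)
        · exact h.not_ter hv hvA h'
      · rw [e2 v hv]
        rintro (h' | h')
        · exact hvy h'
        · exact hv h'.1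
    · intro u v huA hvA huy hvy huv
      by_cases hu : u ∈ D <;> by_cases hv : v ∈ D
      · rw [e1 u hu, e1 v hv] at huv
        exact h.inj u hu v hv huA hvA huv
      · rw [e1 u hu, e2 v hv] at huv
        exact absurd (huv ▸ h.mem u hu huA) hv
      · rw [e2 u hu, e1 v hv] at huv
        exact absurd (huv.symm ▸ h.mem v hv hvA : u ∈ D) hu
      · rw [e2 u hu, e2 v hv] at huv
        exact huv
  by_cases hc : ∃ n l r, AWalk N A y mb n l ∧ N l r ∧ r ∉ Y ∧ ∀ v, v ∉ A → v ≠ y → mb v ≠ r
  · -- augmentation
    left
    obtain ⟨n, l, r, hw, hNlr, hrY, hr⟩ := hc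
    obtain ⟨f, hf, hff⟩ := augment mb n mb l r hpm (by simp) hw hNlr hrY hr
    set D1 : Set V := {v | ∃ t ∈ Y, ∃ k : ℕ, f^[k] t = v ∧ ∀ i < k, f^[i] t ∉ A} with hD1
    have hmem : ∀ v ∈ D1, v ∉ A → f v ∈ D1 := by
      rintro v ⟨t, ht, k, rfl, hk⟩ hvA
      refine ⟨t, ht, k + 1, by rw [Function.iterate_succ_apply'], ?_⟩
      intro i hi
      rcases Nat.lt_succ_iff_lt_or_eq.1 hi with h' | rfl
      · exact hk i h'
      · exact hvA
    have hne : ∀ v ∈ D1, v ∉ A → f v ≠ v := by
      rintro v ⟨t, ht, k, rfl, hk⟩ hvA hfv
      rw [← Function.iterate_succ_apply' f k t] at hfv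
      have := (hf.chains (k + 1) k t t ht ht (by
        intro i hi
        rcases Nat.lt_succ_iff_lt_or_eq.1 hi with h' | rfl
        · exact hk i h'
        · exact hvA) hk hfv).1
      omega
    have hedge : ∀ v ∈ D1, v ∉ A → E (f v) v ∧ f v ∉ X := by
      intro v hv hvA
      rcases hf.nb v hvA with h' | h'
      · exact absurd h' (hne v hv hvA)
      · exact h'
    have hwarp : IsWarp E A D1 f := by
      refine ⟨hmem, fun v hv hvA => (hedge v hv hvA).1,
        fun u _ v _ huA hvA huv => hf.inj u v huA hvA huv, ?_⟩
      intro v hv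
      by_contra hcon
      push Not at hcon
      -- the orbit stays in `D1`
      have horb : ∀ n : ℕ, f^[n] v ∈ D1 := by
        intro n
        induction n with
        | zero => exact hv
        | succ n ih =>
          rw [Function.iterate_succ_apply']
          exact hmem _ ih (hcon n)
      obtain ⟨t, ht, k, hk, hkA⟩ := hv
      have hinj : Function.Injective fun n : ℕ => f^[n] v := by
        intro i j hij
        simp only [← hk, ← Function.iterate_add_apply] at hij
        have hA' : ∀ n, ∀ i < n + k, f^[i] t ∉ A := by
          intro n i _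
          by_cases hik : i < k
          · exact hkA i hik
          · have := hcon (i - k)
            rw [← hk, ← Function.iterate_add_apply] at this
            rwa [Nat.sub_add_cancel (by omega)] at this
        have := (hf.chains (i + k) (j + k) t t ht ht (hA' i) (hA' j) hij).1
        omega
      have hfinpre : {n : ℕ | f (f^[n] v) ≠ mb (f^[n] v)}.Finite :=
        Set.Finite.preimage (hinj.injOn) hff
      obtain ⟨M, hM⟩ := hfinpre.bddAbove
      set w := f^[M + 1] v with hw'
      have hwA : ∀ j : ℕ, f^[j] w ∉ A := by
        intro j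
        rw [hw', ← Function.iterate_add_apply]
        exact hcon _
      have hwf : ∀ j : ℕ, f (f^[j] w) = mb (f^[j] w) := by
        intro j
        by_contra hne'
        have : j + (M + 1) ∈ {n : ℕ | f (f^[n] v) ≠ mb (f^[n] v)} := by
          simp only [Set.mem_ofPred_eq, Function.iterate_add_apply]
          exact hne'
        have := hM this
        omega
      have hwD1 : w ∈ D1 := horb _
      have hwD : w ∈ D := by
        by_contra hwD
        have h1 := hwf 0
        simp only [Function.iterate_zero, id_eq] at h1
        rw [e2 w hwD] at h1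
        exact hne w hwD1 (hwA 0) h1
      have key : ∀ w ∈ D, (∀ j : ℕ, f^[j] w ∉ A) → (∀ j : ℕ, f (f^[j] w) = mb (f^[j] w)) →
          False := by
        refine h.induct ?_ ?_
        · intro w _ hwA hw1 _
          exact hw1 0 hwA
        · intro w hwD _ ih hw1 hw2
          have h1 := hw2 0
          simp only [Function.iterate_zero, id_eq] at h1
          rw [e1 w hwD] at h1
          apply ih
          · intro j
            rw [← h1, ← Function.iterate_succ_apply]
            exact hw1 (j + 1)
          · intro j
            rw [← h1, ← Function.iterate_succ_apply]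
            exact hw2 (j + 1)
      exact key w hwD hwA hwf
    refine ⟨D1, f, hwarp, ?_, ?_⟩
    · rw [Set.disjoint_left]
      rintro v ⟨t, ht, k, rfl, hk⟩
      cases k with
      | zero =>
        rcases ht with rfl | ht
        · exact hyX
        · exact hdX t ht.1
      | succ k =>
        rw [Function.iterate_succ_apply']
        exact (hedge _ ⟨t, ht, k, rfl, fun i hi => hk i (by omega)⟩ (hk k (by omega))).2
    · intro t ht
      refine ⟨⟨t, ht, 0, rfl, fun i hi => absurd hi (by omega)⟩, ?_⟩
      rintro u _ huA rfl
      exact hf.out u huA ht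
  · -- separation
    right
    push Not at hc
    set S : Set V := {l | ∃ n, AWalk N A y mb n l} with hS
    have hyS : y ∈ S := ⟨0, rfl⟩
    have hSA : ∀ v ∈ S, v ∉ A := by
      rintro v ⟨n, hn⟩
      cases n with
      | zero => simp only [AWalk] at hn; rw [hn]; exact hyA
      | succ n => obtain ⟨_, _, h', _⟩ := hn; exact h'
    have hSN : ∀ l ∈ S, ∀ r, N l r → r ∈ Y ∨ ∃ l' ∈ S, l' ≠ y ∧ mb l' = r := by
      rintro l ⟨n, hn⟩ r hr
      by_cases hrY : r ∈ Y
      · exact Or.inl hrY
      · right
        obtain ⟨v, hvA, hvy, hv⟩ := hc n l r hn hr hrY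
        exact ⟨v, ⟨n + 1, l, hn, hvA, hvy, by rw [hv]; exact hr⟩, hvy, hv⟩
    have hback : ∀ v ∈ D, v ∉ A → m v ∈ S → v ∈ S := by
      intro v hv hvA hmS
      rcases hSN (m v) hmS (m v) (Or.inl rfl) with h' | ⟨l', hl', hl'y, h'⟩
      · rcases h' with h' | h'
        · exact absurd (h' ▸ h.mem v hv hvA) hyD
        · exact absurd h' (h.not_ter hv hvA)
      · have : l' = v := by
          apply hpm.inj l' v (hSA l' hl') hvA hl'y
          · rintro rfl; exact hyD hv
          · rw [h', e1 v hv]
        rw [← this]
        exact hl'
    have hwarp : IsWarp E A (D \ S) m := by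
      constructor
      · rintro v ⟨hv, hvS⟩ hvA
        exact ⟨h.mem v hv hvA, fun hm => hvS (hback v hv hvA hm)⟩
      · rintro v ⟨hv, _⟩ hvA
        exact h.edge v hv hvA
      · rintro u ⟨hu, _⟩ v ⟨hv, _⟩ huA hvA huv
        exact h.inj u hu v hv huA hvA huv
      · rintro v ⟨hv, _⟩
        exact h.fin v hv
    refine ⟨D \ S, Set.sdiff_subset, hwarp, ?_⟩
    have hT : ∀ v ∈ Y, v ∉ S → v ∈ ter A (D \ S) m := by
      rintro v (rfl | hv) hvS
      · exact absurd hyS hvS
      · exact ⟨⟨hv.1, hvS⟩, fun u hu huA => hv.2 u hu.1 huA⟩
    have key : ∀ v, Esc E Y (ter A (D \ S) m ∪ X) v → v ∈ S := by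
      intro v hv
      induction hv with
      | base hB hn =>
        by_contra hc'
        exact hn (Or.inl (hT _ hB hc'))
      | @step v w hn hE _ ih =>
        by_contra hvS
        rcases hSN w ih v (Or.inr ⟨hE, fun hx => hn (Or.inr hx)⟩) with h' | ⟨l', hl', hl'y, h'⟩
        · exact hn (Or.inl (hT v h' hvS))
        · have hl'D : l' ∈ D := by
            by_contra hl'D
            rw [e2 l' hl'D] at h'
            exact hvS (h' ▸ hl')
          rw [e1 l' hl'D] at h'
          refine hn (Or.inl ⟨⟨h' ▸ h.mem l' hl'D (hSA l' hl'), hvS⟩, ?_⟩)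
          rintro u ⟨hu, huS⟩ huA huv
          have : u = l' := h.inj u hu l' hl'D huA (hSA l' hl') (huv.trans h'.symm)
          exact huS (this ▸ hl')
    intro a ha hesc
    exact hSA a (key a hesc) ha

end

end Pool.Webs
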