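import Mathlib

/-!
Roofing, warps, waves: the internal representation.
-/

universe u

namespace Pool.Webs

variable {V : Type u}

/-- `v` escapes from `T` to `B` along `E`. -/
inductive Esc (E : V → V → Prop) (B T : Set V) : V → Prop
  | base {v : V} : v ∈ B → v ∉ T → Esc E B T v
  | step {v w : V} : v ∉ T → E v w → Esc E B T w → Esc E B T v

/-- The set roofed by `T`. -/
def RF (E : V → V → Prop) (B T : Set V) : Set V := {v | ¬ Esc E B T v}

section RF

variable {E : V → V → Prop} {B T T' : Set V} {v w : V}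

theorem Esc.not_mem (h : Esc E B T v) : v ∉ T := by
  cases h with
  | base _ h => exact h
  | step h _ _ => exact h

theorem subset_RF : T ⊆ RF E B T := fun _ hv h => h.not_mem hv

theorem RF_step (hv : v ∈ RF E B T) (hT : v ∉ T) (hE : E v w) : w ∈ RF E B T :=
  fun h => hv (Esc.step hT hE h)

theorem RF_mem_of_B (hv : v ∈ RF E B T) (hB : v ∈ B) : v ∈ T := by
  by_contra h
  exact hv (Esc.base hB h)

theorem Esc.mono (hT : T ⊆ T') (h : Esc E B T' v) : Esc E B T v := by
  induction h with
  | base hB hn => exact Esc.base hB (fun h => hn (hT h))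
  | step hn hE _ ih => exact Esc.step (fun h => hn (hT h)) hE ih

theorem RF_mono (hT : T ⊆ T') : RF E B T ⊆ RF E B T' := fun _ hv h => hv (h.mono hT)

theorem closed_sub_RF {K : Set V} (h1 : ∀ v ∈ K, v ∉ T → ∀ w, E v w → w ∈ K)
    (h2 : ∀ v ∈ K, v ∈ B → v ∈ T) : K ⊆ RF E B T := by
  intro v hv h
  revert hv
  induction h with
  | base hB hn => exact fun hv => hn (h2 _ hv hB)
  | step hn hE _ ih => exact fun hv => ih (h1 _ hv hn _ hE)

theorem RF_sub_of_sub (hT : T ⊆ RF E B T') : RF E B T ⊆ RF E B T' := by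
  intro v hv h
  apply hv
  clear hv
  induction h with
  | base hB hn => exact Esc.base hB (fun h => hT h (Esc.base hB hn))
  | step hn hE h ih => exact Esc.step (fun h' => hT h' (Esc.step hn hE h)) hE ih

/-- Composition of separations. -/
theorem RF_comp {S F T'' : Set V} (h1 : v ∈ RF E B (S ∪ F)) (h2 : v ∈ RF E S (T'' ∪ F)) :
    v ∈ RF E B (T'' ∪ F) := by
  intro h
  have key : ∀ u, Esc E B (T'' ∪ F) u → Esc E S (T'' ∪ F) u ∨ Esc E B (S ∪ F) u := by
    intro u hu
    induction hu with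
    | @base u hB hn =>
      by_cases hS : u ∈ S
      · exact Or.inl (Esc.base hS hn)
      · refine Or.inr (Esc.base hB ?_)
        rintro (h | h)
        · exact hS h
        · exact hn (Or.inr h)
    | @step u w hn hE _ ih =>
      rcases ih with ih | ih
      · exact Or.inl (Esc.step hn hE ih)
      · by_cases hS : u ∈ S
        · exact Or.inl (Esc.base hS hn)
        · refine Or.inr (Esc.step ?_ hE ih)
          rintro (h | h)
          · exact hS h
          · exact hn (Or.inr h)
  rcases key v h with h | h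
  · exact h2 h
  · exact h1 h

end RF

/-- A warp whose paths start in `A` and meet `A` only there, given by its vertex set `D` and the
predecessor map `m`. -/
structure IsWarp (E : V → V → Prop) (A D : Set V) (m : V → V) : Prop where
  mem : ∀ v ∈ D, v ∉ A → m v ∈ D
  edge : ∀ v ∈ D, v ∉ A → E (m v) v
  inj : ∀ u ∈ D, ∀ v ∈ D, u ∉ A → v ∉ A → m u = m v → u = v
  fin : ∀ v ∈ D, ∃ n : ℕ, m^[n] v ∈ A

/-- terminal vertices -/
def ter (A D : Set V) (m : V → V) : Set V := {v | v ∈ D ∧ ∀ u ∈ D, u ∉ A → m u ≠ v}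

/-- Vertices on the path ending in `t`. -/
inductive OnPath (A : Set V) (m : V → V) (t : V) : V → Prop
  | refl : OnPath A m t t
  | step {v : V} : OnPath A m t v → v ∉ A → OnPath A m t (m v)

section Warp

variable {E : V → V → Prop} {A B D D' T : Set V} {m m' : V → V} {t v w : V}

theorem ter_sub : ter A D m ⊆ D := fun _ h => h.1

theorem OnPath.head (hv : v ∉ A) (h : OnPath A m (m v) w) : OnPath A m v w := by
  induction h with
  | refl => exact OnPath.step OnPath.refl hv
  | step _ h ih => exact OnPath.step ih h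

theorem exists_start (m : V → V) (n : ℕ) : ∀ v, m^[n] v ∈ A → ∃ a ∈ A, OnPath A m v a := by
  induction n with
  | zero => exact fun v hv => ⟨v, hv, OnPath.refl⟩
  | succ n ih =>
    intro v hv
    by_cases hA : v ∈ A
    · exact ⟨v, hA, OnPath.refl⟩
    · rw [Function.iterate_succ_apply] at hv
      obtain ⟨a, ha, h⟩ := ih _ hv
      exact ⟨a, ha, h.head hA⟩

theorem IsWarp.start (h : IsWarp E A D m) (hv : v ∈ D) : ∃ a ∈ A, OnPath A m v a := by
  obtain ⟨n, hn⟩ := h.fin v hv
  exact exists_start m n v hn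

theorem IsWarp.onPath_mem (h : IsWarp E A D m) (ht : t ∈ D) (hv : OnPath A m t v) : v ∈ D := by
  induction hv with
  | refl => exact ht
  | step _ hA ih => exact h.mem _ ih hA

/-- Induction along a warp, from `A`. -/
theorem IsWarp.induct (h : IsWarp E A D m) {p : V → Prop} (hA : ∀ v ∈ D, v ∈ A → p v)
    (hs : ∀ v ∈ D, v ∉ A → p (m v) → p v) : ∀ v ∈ D, p v := by
  have key : ∀ n : ℕ, ∀ v ∈ D, m^[n] v ∈ A → p v := by
    intro n
    induction n with
    | zero => exact fun v hv hvA => hA v hv hvA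
    | succ n ih =>
      intro v hv hvA
      by_cases hA' : v ∈ A
      · exact hA v hv hA'
      · rw [Function.iterate_succ_apply] at hvA
        exact hs v hv hA' (ih _ (h.mem v hv hA') hvA)
  intro v hv
  obtain ⟨n, hn⟩ := h.fin v hv
  exact key n v hv hn

theorem IsWarp.not_ter (_h : IsWarp E A D m) (hv : v ∈ D) (hA : v ∉ A) : m v ∉ ter A D m :=
  fun ht => ht.2 v hv hA rfl

/-- Vertices of a warp are roofed. -/
theorem IsWarp.sub_RF (h : IsWarp E A D m) {X : Set V} (hX : Disjoint D X)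
    (hA : A ⊆ RF E B (ter A D m ∪ X)) : D ⊆ RF E B (ter A D m ∪ X) := by
  intro v hv
  refine h.induct (p := fun v => v ∈ RF E B (ter A D m ∪ X)) (fun v _ hvA => hA hvA) ?_ v hv
  intro v hv hvA hm
  refine RF_step hm ?_ (h.edge v hv hvA)
  rintro (h' | h')
  · exact h.not_ter hv hvA h'
  · exact Set.disjoint_left.1 hX (h.mem v hv hvA) h'

theorem IsWarp.back (h : IsWarp E A D m) (ht : t ∈ ter A D m) (hv : v ∈ D) (hA : v ∉ A)
    (hp : OnPath A m t (m v)) : OnPath A m t v := by
  generalize hw : m v = w at hp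
  cases hp with
  | refl => exact absurd hw (ht.2 v hv hA)
  | @step u hu huA =>
    have : v = u := h.inj v hv u (h.onPath_mem ht.1 hu) hA huA hw
    rw [this]
    exact hu

theorem IsWarp.onPath_ter (h : IsWarp E A D m) (ht : t ∈ D) (hv : v ∈ ter A D m)
    (hp : OnPath A m t v) : v = t := by
  cases hp with
  | refl => rfl
  | @step u hu huA => exact absurd rfl (hv.2 u (h.onPath_mem ht hu) huA)

/-- Removing the whole path ending in `t`. -/
theorem IsWarp.remove (h : IsWarp E A D m) (ht : t ∈ ter A D m) :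
    IsWarp E A (D \ {v | OnPath A m t v}) m := by
  constructor
  · rintro v ⟨hv, hvt⟩ hA
    exact ⟨h.mem v hv hA, fun hp => hvt (h.back ht hv hA hp)⟩
  · rintro v ⟨hv, _⟩ hA
    exact h.edge v hv hA
  · rintro u ⟨hu, _⟩ v ⟨hv, _⟩ huA hvA huv
    exact h.inj u hu v hv huA hvA huv
  · rintro v ⟨hv, _⟩
    exact h.fin v hv

theorem IsWarp.remove_ter (h : IsWarp E A D m) (ht : t ∈ ter A D m) :
    ter A D m \ {t} ⊆ ter A (D \ {v | OnPath A m t v}) m := by
  rintro v ⟨hv, hvt⟩
  refine ⟨⟨hv.1, fun hp => hvt (h.onPath_ter ht.1 hv hp)⟩, ?_⟩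
  rintro u ⟨hu, _⟩ huA
  exact hv.2 u hu huA

/-- Trimming: dropping the infinite paths. -/
theorem IsWarp.trim (h : IsWarp E A D m) :
    IsWarp E A {v | ∃ t ∈ ter A D m, OnPath A m t v} m := by
  have hsub : ∀ v, (∃ t ∈ ter A D m, OnPath A m t v) → v ∈ D := by
    rintro v ⟨t, ht, hp⟩
    exact h.onPath_mem ht.1 hp
  constructor
  · rintro v ⟨t, ht, hp⟩ hA
    exact ⟨t, ht, hp.step hA⟩
  · intro v hv hA
    exact h.edge v (hsub v hv) hA
  · intro u hu v hv huA hvA huv
    exact h.inj u (hsub u hu) v (hsub v hv) huA hvA huv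
  · intro v hv
    exact h.fin v (hsub v hv)

theorem IsWarp.trim_sub (h : IsWarp E A D m) : {v | ∃ t ∈ ter A D m, OnPath A m t v} ⊆ D := by
  rintro v ⟨t, ht, hp⟩
  exact h.onPath_mem ht.1 hp

theorem IsWarp.trim_ter (h : IsWarp E A D m) :
    ter A D m ⊆ ter A {v | ∃ t ∈ ter A D m, OnPath A m t v} m := by
  intro t ht
  refine ⟨⟨t, ht, OnPath.refl⟩, ?_⟩
  intro u hu huA
  exact ht.2 u (h.trim_sub hu) huA

end Warp

end Pool.Webs
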