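import Pool.Agent.Webs.Aug

/-!
Properties of the closure operator `cl` on admissible sets.
-/

universe u

namespace Pool.Webs

variable {V : Type u}

variable {E : V → V → Prop} {A B X F G : Set V} {x y f : V}

/-- `(S4)` -/
theorem Adm.insert_of_notMem (h : Adm E A B F) (hy : y ∉ cl E A B F) :
    Adm E A B (insert y F) := by
  intro D' m' hw
  by_contra hc
  obtain ⟨a0, ha0, ha0D⟩ := Set.not_subset.1 hc
  have hyF : y ∉ F := fun h => hy (sub_cl h)
  have hd : Disjoint D' F := hw.disj.mono_right (Set.subset_insert _ _)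
  have hyD : y ∉ D' := fun hyD => Set.disjoint_left.1 hw.disj hyD (Or.inl rfl)
  have hsub : ter A D' m' ∪ insert y F = insert y (ter A D' m') ∪ F := by
    rw [Set.union_insert, Set.insert_union]
  have hroof := hw.roof
  rw [hsub] at hroof
  rcases hw.warp.aug hd hyD hyF with ⟨D1, m1, hw1, hd1, ht1⟩ | ⟨D2, hD2, hw2, hs2⟩
  · have hwave : IsWave E A B F D1 m1 :=
      ⟨hw1, hd1, hroof.trans (RF_mono (Set.union_subset_union_left _ ht1))⟩
    exact hy (hwave.sub_cl (subset_RF (Or.inl (ht1 (Or.inl rfl)))))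
  · have hwave : IsWave E A B F D2 m' :=
      ⟨hw2, hd.mono_left hD2, fun a ha => RF_comp (hroof ha) (hs2 ha)⟩
    exact ha0D (hD2 (h _ _ hwave ⟨ha0.1, fun h => ha0.2 (Or.inr h)⟩))

/-- `(S1)` -/
theorem cl_mono_insert (h : Adm E A B (insert x F)) (hx : x ∉ A) :
    cl E A B F ⊆ cl E A B (insert x F) := by
  obtain ⟨D, m, hw, hcl⟩ := exists_max_wave E A B F
  rw [← hcl]
  by_cases hxD : ∃ t ∈ ter A D m, OnPath A m t x
  · obtain ⟨t, ht, htx⟩ := hxD
    have htx' : t ≠ x := by
      rintro rfl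
      exact hw.not_ter hx h ht
    have hxmem : x ∈ D := hw.warp.onPath_mem ht.1 htx
    obtain ⟨a, ha, hpa⟩ := hw.warp.start ht.1
    have haD : a ∈ D := hw.warp.onPath_mem ht.1 hpa
    have hd : Disjoint (D \ {v | OnPath A m t v}) (insert x F) := by
      rw [Set.disjoint_left]
      rintro v ⟨hv, hvp⟩ (rfl | hvF)
      · exact hvp htx
      · exact Set.disjoint_left.1 hw.disj hv hvF
    have htF : t ∉ insert x F := by
      rintro (h' | h')
      · exact htx' h'
      · exact Set.disjoint_left.1 hw.disj ht.1 h'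
    have htD : t ∉ D \ {v | OnPath A m t v} := fun h' => h'.2 OnPath.refl
    have hsub : ter A D m ∪ F ⊆
        insert t (ter A (D \ {v | OnPath A m t v}) m) ∪ insert x F := by
      rintro v (hv | hv)
      · by_cases hvt : v = t
        · exact Or.inl (Or.inl hvt)
        · exact Or.inl (Or.inr (hw.warp.remove_ter ht ⟨hv, hvt⟩))
      · exact Or.inr (Or.inr hv)
    rcases (hw.warp.remove ht).aug hd htD htF with ⟨D1, m1, hw1, hd1, ht1⟩ | ⟨D2, hD2, hw2, hs2⟩
    · have hsub' := hsub.trans (Set.union_subset_union_left (insert x F) ht1)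
      have hwave : IsWave E A B (insert x F) D1 m1 :=
        ⟨hw1, hd1, hw.roof.trans (RF_mono hsub')⟩
      exact (RF_mono hsub').trans hwave.sub_cl
    · exfalso
      have hwave : IsWave E A B (insert x F) D2 m :=
        ⟨hw2, hd.mono_left hD2, fun a ha => RF_comp (RF_mono hsub (hw.roof ha)) (hs2 ha)⟩
      refine (hD2 (h _ _ hwave ⟨ha, ?_⟩)).2 hpa
      rintro (rfl | haF)
      · exact hx ha
      · exact Set.disjoint_left.1 hw.disj haD haF
  · have hd : Disjoint {v | ∃ t ∈ ter A D m, OnPath A m t v} (insert x F) := by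
      rw [Set.disjoint_left]
      rintro v hv (rfl | hvF)
      · exact hxD hv
      · exact Set.disjoint_left.1 hw.disj (hw.warp.trim_sub hv) hvF
    have hwave := hw.trim.of_disjoint (Set.subset_insert x F) hd
    refine Set.Subset.trans (RF_mono ?_) hwave.sub_cl
    exact Set.union_subset_union hw.warp.trim_ter (Set.subset_insert x F)

/-- `(N)`: a vertex of `cl F` whose addition is admissible is not in `B`, and its out-neighbours
are in `cl F`. -/
theorem cl_nbr (h : Adm E A B (insert y F)) (hyA : y ∉ A) (hyF : y ∉ F) (hy : y ∈ cl E A B F) :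
    y ∉ B ∧ ∀ w, E y w → w ∈ cl E A B F := by
  obtain ⟨D, m, hw, hcl⟩ := exists_max_wave E A B F
  rw [← hcl] at hy ⊢
  have hyt : y ∉ ter A D m ∪ F := by
    rintro (h' | h')
    · exact hw.not_ter hyA h h'
    · exact hyF h'
  exact ⟨fun hB => hyt (RF_mem_of_B hy hB), fun w hE => RF_step hy hyt hE⟩

/-- `(AE)`: anti-exchange. -/
theorem anti_exchange (h : Adm E A B (insert f (insert y G))) (hyA : y ∉ A) (hfA : f ∉ A)
    (hyG : y ∉ G) (hfG : f ∉ G) (hne : f ≠ y)
    (h1 : f ∈ cl E A B (insert y G)) (h2 : y ∈ cl E A B (insert f G)) :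
    y ∈ cl E A B G := by
  have hcomm : insert f (insert y G) = insert y (insert f G) := Set.insert_comm _ _ _
  have h' : Adm E A B (insert y (insert f G)) := hcomm ▸ h
  set C := cl E A B (insert f (insert y G)) with hC
  have c1 : cl E A B (insert y G) ⊆ C := cl_mono_insert h hfA
  have c2 : cl E A B (insert f G) ⊆ C := by
    rw [hC, hcomm]; exact cl_mono_insert h' hyA
  have n1 := cl_nbr h' hyA (by rintro (h | h); exacts [hne h.symm, hyG h]) h2
  have n2 := cl_nbr h hfA (by rintro (h | h); exacts [hne h, hfG h]) h1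
  obtain ⟨D, m, hw, hcl⟩ := exists_max_wave E A B (insert f (insert y G))
  have hsub : G ⊆ insert f (insert y G) :=
    (Set.subset_insert _ _).trans (Set.subset_insert _ _)
  have hh : ∀ v ∈ insert f (insert y G), v ∉ G → v ∉ B ∧
      ∀ w, E v w → w ∈ RF E B (ter A D m ∪ insert f (insert y G)) := by
    rintro v (rfl | rfl | hv) hvG
    · exact ⟨n2.1, fun w hE => by rw [hcl]; exact c1 (n2.2 w hE)⟩
    · exact ⟨n1.1, fun w hE => by rw [hcl]; exact c2 (n1.2 w hE)⟩
    · exact absurd hv hvG
  have hw' := hw.restrict hsub hh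
  apply hw'.sub_cl
  apply RF_restrict hh
  rw [hcl]
  exact c2 h2

end Pool.Webs
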