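import Pool.Agent.Webs.Closure

/-!
The main argument: in an unhindered web there is, for every `a ∈ A`, a set `Z` containing `a` and
a vertex of `B`, connected from `a`, all of whose finite subsets containing `a` are admissible.
-/

universe u

namespace Pool.Webs

variable {V : Type u}

variable {E : V → V → Prop} {A B : Set V} {a : V} {Z : Set V}

/-- Extreme vertices of `Z`. -/
def Ext (E : V → V → Prop) (A B : Set V) (a : V) (Z : Set V) : Set V :=
  {z | z ∈ Z ∧ ∀ F : Set V, F.Finite → F ⊆ Z → a ∈ F → z ∉ F → z ∉ cl E A B F}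

/-- The standing hypotheses on `Z`. -/
structure Indep (E : V → V → Prop) (A B : Set V) (a : V) (Z : Set V) : Prop where
  mem : a ∈ Z
  inter : ∀ z ∈ Z, z ∈ A → z = a
  adm : ∀ F : Set V, F.Finite → F ⊆ Z → a ∈ F → Adm E A B F

theorem Indep.mono_insert (h : Indep E A B a Z) {F : Set V} (hF : F.Finite) (hFZ : F ⊆ Z)
    (ha : a ∈ F) {x : V} (hx : x ∈ Z) : cl E A B F ⊆ cl E A B (insert x F) := by
  by_cases hxa : x = a
  · subst hxa
    rw [Set.insert_eq_of_mem ha]
  · exact cl_mono_insert (h.adm _ (hF.insert x) (Set.insert_subset hx hFZ) (Or.inr ha))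
      (fun hA => hxa (h.inter x hx hA))

theorem Indep.mono_union (h : Indep E A B a Z) {F : Set V} (hF : F.Finite) (hFZ : F ⊆ Z)
    (ha : a ∈ F) {s : Set V} (hs : s.Finite) (hsZ : s ⊆ Z) :
    cl E A B F ⊆ cl E A B (F ∪ s) := by
  revert hsZ
  refine Set.Finite.induction_on s hs ?_ ?_
  · intro _
    rw [Set.union_empty]
  · intro x s _ hs ih hsZ
    have hs' : s ⊆ Z := (Set.subset_insert x s).trans hsZ
    refine (ih hs').trans ?_
    rw [Set.union_insert]
    exact h.mono_insert (hF.union hs) (Set.union_subset hFZ hs') (Or.inl ha) (hsZ (Or.inl rfl))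

theorem Indep.mono (h : Indep E A B a Z) {F F' : Set V} (ha : a ∈ F) (hF' : F'.Finite)
    (hFZ' : F' ⊆ Z) (hFF' : F ⊆ F') : cl E A B F ⊆ cl E A B F' := by
  have := h.mono_union (hF'.subset hFF') (hFF'.trans hFZ') ha hF' hFZ'
  rwa [Set.union_eq_self_of_subset_left hFF'] at this

theorem Indep.star (h : Indep E A B a Z) {F0 : Set V} (hF0 : F0.Finite) (hF0Z : F0 ⊆ Z)
    (haF0 : a ∈ F0) : cl E A B F0 ⊆ cl E A B (Ext E A B a Z) := by
  classical
  set X := Ext E A B a Z with hX
  have haX : a ∈ X := ⟨h.mem, fun F _ _ haF haF' => absurd haF haF'⟩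
  -- the witnesses
  have hch : ∀ z : V, ∃ F : Set V, F.Finite ∧ F ⊆ Z ∧ a ∈ F ∧
      (z ∈ Z → z ∉ X → z ∉ F ∧ z ∈ cl E A B F) := by
    intro z
    by_cases hz : z ∈ Z ∧ z ∉ X
    · have : ∃ F : Set V, F.Finite ∧ F ⊆ Z ∧ a ∈ F ∧ z ∉ F ∧ z ∈ cl E A B F := by
        by_contra hc
        push Not at hc
        exact hz.2 ⟨hz.1, hc⟩
      obtain ⟨F, h1, h2, h3, h4, h5⟩ := this
      exact ⟨F, h1, h2, h3, fun _ _ => ⟨h4, h5⟩⟩
    · refine ⟨{a}, Set.finite_singleton a, Set.singleton_subset_iff.2 h.mem, rfl, ?_⟩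
      intro h1 h2
      exact absurd ⟨h1, h2⟩ hz
  choose Fz hFz1 hFz2 hFz3 hFz4 using hch
  -- the countable closure
  let Cn : ℕ → Set V := fun n => Nat.rec F0 (fun _ s => s ∪ ⋃ z ∈ s, Fz z) n
  have hCn0 : Cn 0 = F0 := rfl
  have hCns : ∀ n, Cn (n + 1) = Cn n ∪ ⋃ z ∈ Cn n, Fz z := fun n => rfl
  have hCfin : ∀ n, (Cn n).Finite ∧ Cn n ⊆ Z := by
    intro n
    induction n with
    | zero => exact ⟨hF0, hF0Z⟩
    | succ n ih =>
      rw [hCns]
      refine ⟨ih.1.union (ih.1.biUnion (fun z _ => hFz1 z)), Set.union_subset ih.2 ?_⟩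
      exact Set.iUnion₂_subset (fun z _ => hFz2 z)
  set C : Set V := ⋃ n, Cn n with hC
  have hCcount : C.Countable := Set.countable_iUnion (fun n => (hCfin n).1.countable)
  have hCZ : C ⊆ Z := Set.iUnion_subset (fun n => (hCfin n).2)
  have hF0C : F0 ⊆ C := Set.subset_iUnion Cn 0
  have haC : a ∈ C := hF0C haF0
  have hCcl : ∀ z ∈ C, Fz z ⊆ C := by
    intro z hz
    obtain ⟨n, hn⟩ := Set.mem_iUnion.1 hz
    intro w hw
    refine Set.mem_iUnion.2 ⟨n + 1, ?_⟩
    rw [hCns]
    exact Or.inr (Set.mem_iUnion₂.2 ⟨z, hn, hw⟩)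
  obtain ⟨c, hc⟩ := hCcount.exists_eq_range ⟨a, haC⟩
  have hcC : ∀ n, c n ∈ C := fun n => hc ▸ Set.mem_range_self n
  -- the greedy sequence
  let Y : ℕ → Set V := fun n =>
    Nat.rec {a} (fun n s => if c n ∈ cl E A B s then s else insert (c n) s) n
  have hY0 : Y 0 = {a} := rfl
  have hYs : ∀ n, Y (n + 1) = if c n ∈ cl E A B (Y n) then Y n else insert (c n) (Y n) :=
    fun n => rfl
  have hYsub : ∀ n, Y n ⊆ Y (n + 1) := by
    intro n
    rw [hYs]
    split_ifs
    · exact Set.Subset.rfl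
    · exact Set.subset_insert _ _
  have hYmono : Monotone Y := monotone_nat_of_le_succ hYsub
  have haY : ∀ n, a ∈ Y n := fun n => hYmono (Nat.zero_le n) (by rw [hY0]; rfl)
  have hYfin : ∀ n, (Y n).Finite ∧ Y n ⊆ C := by
    intro n
    induction n with
    | zero => exact ⟨Set.finite_singleton a, Set.singleton_subset_iff.2 haC⟩
    | succ n ih =>
      rw [hYs]
      split_ifs
      · exact ih
      · exact ⟨ih.1.insert _, Set.insert_subset (hcC n) ih.2⟩
  have hYZ : ∀ n, Y n ⊆ Z := fun n => (hYfin n).2.trans hCZ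
  have hclmono : Monotone fun n => cl E A B (Y n) := by
    intro n k hnk
    exact h.mono (haY n) (hYfin k).1 (hYZ k) (hYmono hnk)
  have hccl : ∀ n, c n ∈ cl E A B (Y (n + 1)) := by
    intro n
    rw [hYs]
    split_ifs with hif
    · exact hif
    · exact sub_cl (Or.inl rfl)
  have hYout : ∀ n k, n ≤ k → ∀ y ∈ Y k, y ∉ Y n → y ∉ cl E A B (Y n) := by
    intro n k hnk
    induction k, hnk using Nat.le_induction with
    | base => exact fun y hy hyn => absurd hy hyn
    | succ k hnk ih =>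
      intro y hy hyn
      rw [hYs] at hy
      split_ifs at hy with hif
      · exact ih y hy hyn
      · rcases hy with rfl | hy
        · exact fun h' => hif (hclmono hnk h')
        · exact ih y hy hyn
  have hCev : ∀ F : Set V, F.Finite → F ⊆ C → ∃ n, F ⊆ cl E A B (Y n) := by
    intro F hF hFC
    have : ∀ x : V, ∃ n, x ∈ C → x ∈ cl E A B (Y n) := by
      intro x
      by_cases hx : x ∈ C
      · have hx' := hx
        rw [hc] at hx'
        obtain ⟨n, rfl⟩ := hx'
        exact ⟨n + 1, fun _ => hccl n⟩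
      · exact ⟨0, fun h => absurd h hx⟩
    choose g hg using this
    obtain ⟨M, hM⟩ := (hF.image g).bddAbove
    refine ⟨M, fun x hx => ?_⟩
    exact hclmono (hM (Set.mem_image_of_mem g hx)) (hg x (hFC hx))
  have hclC : ∀ F : Set V, F.Finite → F ⊆ C → a ∈ F → ∃ n, cl E A B F ⊆ cl E A B (Y n) := by
    intro F hF hFC haF
    obtain ⟨n, hn⟩ := hCev F hF hFC
    refine ⟨n, ?_⟩
    refine (h.mono_union hF (hFC.trans hCZ) haF (hYfin n).1 (hYZ n)).trans ?_
    exact cl_sub_cl Set.subset_union_right (Set.union_subset hn sub_cl)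
  set U : Set V := ⋃ n, Y n with hU
  have hUC : U ⊆ C := Set.iUnion_subset (fun n => (hYfin n).2)
  have hwn : ∀ n, cl E A B (Y n) ⊆ cl E A B (U ∪ X) := by
    intro n
    obtain ⟨D, m, hw, hcl⟩ := exists_max_wave E A B (Y n)
    have hsub : Y n ⊆ U ∪ X := (Set.subset_iUnion Y n).trans Set.subset_union_left
    have hd : Disjoint D (U ∪ X) := by
      rw [Set.disjoint_left]
      intro v hv hv'
      have hvY : v ∉ Y n := Set.disjoint_left.1 hw.disj hv
      have hvcl : v ∈ cl E A B (Y n) := by rw [← hcl]; exact hw.sub_RF hv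
      rcases hv' with hv' | hv'
      · obtain ⟨k, hk⟩ := Set.mem_iUnion.1 hv'
        rcases le_total k n with hkn | hkn
        · exact hvY (hYmono hkn hk)
        · exact hYout n k hkn v hk hvY hvcl
      · exact hv'.2 (Y n) (hYfin n).1 (hYZ n) (haY n) hvY hvcl
    rw [← hcl]
    exact (RF_mono (Set.union_subset_union_right _ hsub)).trans
      (hw.of_disjoint hsub hd).sub_cl
  -- Claim A
  have hA : ∀ y ∈ U, y ∉ X → y ∉ B ∧ ∀ w, E y w → w ∈ cl E A B (U ∪ X) := by
    intro y hyU hyX
    have hyC : y ∈ C := hUC hyU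
    have hyZ : y ∈ Z := hCZ hyC
    have hya : a ≠ y := by rintro rfl; exact hyX haX
    have hyA : y ∉ A := fun hA => hya (h.inter y hyZ hA).symm
    obtain ⟨hy1, hy2⟩ := hFz4 y hyZ hyX
    obtain ⟨k, hk⟩ := Set.mem_iUnion.1 hyU
    obtain ⟨n0, hn0⟩ := hCev (Fz y) (hFz1 y) (hCcl y hyC)
    set n := max k n0 with hn
    have hyn : y ∈ Y n := hYmono (le_max_left _ _) hk
    have hFn : Fz y ⊆ cl E A B (Y n) := hn0.trans (hclmono (le_max_right _ _))
    set G : Set V := Y n \ {y} with hG
    have hGins : insert y G = Y n := by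
      rw [hG, Set.insert_sdiff_singleton, Set.insert_eq_of_mem hyn]
    have haG : a ∈ G := ⟨haY n, hya⟩
    have hyG : y ∉ G := fun h => h.2 rfl
    have hGfin : G.Finite := (hYfin n).1.subset Set.sdiff_subset
    have hGZ : G ⊆ Z := Set.sdiff_subset.trans (hYZ n)
    have key : ∀ s : Set V, s.Finite → s ⊆ Fz y → y ∈ cl E A B (G ∪ s) → y ∈ cl E A B G := by
      intro s hs
      refine Set.Finite.induction_on s hs ?_ ?_
      · intro _ h1
        rwa [Set.union_empty] at h1
      · intro f s _ hs ih hsF hycl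
        have hsF' : s ⊆ Fz y := (Set.subset_insert f s).trans hsF
        have hfF : f ∈ Fz y := hsF (Or.inl rfl)
        have hfZ : f ∈ Z := hFz2 y hfF
        have hsZ : s ⊆ Z := hsF'.trans (hFz2 y)
        apply ih hsF'
        rw [Set.union_insert] at hycl
        rcases Classical.em (f ∈ G ∪ s) with hfG | hfG
        · rwa [Set.insert_eq_of_mem hfG] at hycl
        · have hfy : f ≠ y := by rintro rfl; exact hy1 hfF
          have hfa : f ≠ a := by rintro rfl; exact hfG (Or.inl haG)
          have hyGs : y ∉ G ∪ s := by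
            rintro (h' | h')
            · exact hyG h'
            · exact hy1 (hsF' h')
          have hGs : (G ∪ s).Finite := hGfin.union hs
          have hGsZ : G ∪ s ⊆ Z := Set.union_subset hGZ hsZ
          refine anti_exchange (f := f) ?_ hyA (fun hA => hfa (h.inter f hfZ hA)) hyGs hfG hfy
            ?_ hycl
          · refine h.adm _ ((hGs.insert y).insert f) ?_ (Or.inr (Or.inr (Or.inl haG)))
            exact Set.insert_subset hfZ (Set.insert_subset hyZ hGsZ)
          · have h1 : f ∈ cl E A B (insert y G) := by rw [hGins]; exact hFn hfF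
            exact h.mono (Or.inr haG) (hGs.insert y) (Set.insert_subset hyZ hGsZ)
              (Set.insert_subset_insert Set.subset_union_left) h1
    have hycl : y ∈ cl E A B G := by
      apply key (Fz y) (hFz1 y) Set.Subset.rfl
      exact h.mono (hFz3 y) (hGfin.union (hFz1 y)) (Set.union_subset hGZ (hFz2 y))
        Set.subset_union_right hy2
    have hadm : Adm E A B (insert y G) := by
      rw [hGins]; exact h.adm _ (hYfin n).1 (hYZ n) (haY n)
    obtain ⟨hB, hnb⟩ := cl_nbr hadm hyA hyG hycl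
    refine ⟨hB, fun w hE => hwn n ?_⟩
    have := h.mono_insert hGfin hGZ haG hyZ (hnb w hE)
    rwa [hGins] at this
  -- conclusion
  obtain ⟨D, m, hw, hcl⟩ := exists_max_wave E A B (U ∪ X)
  have hh : ∀ v ∈ U ∪ X, v ∉ X → v ∉ B ∧ ∀ w, E v w → w ∈ RF E B (ter A D m ∪ (U ∪ X)) := by
    rintro v (hv | hv) hvX
    · rw [hcl]; exact hA v hv hvX
    · exact absurd hv hvX
  have hfinal : cl E A B (U ∪ X) ⊆ cl E A B X := by
    rw [← hcl]
    exact (RF_restrict hh).trans (hw.restrict Set.subset_union_right hh).sub_cl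
  obtain ⟨n, hn⟩ := hclC F0 hF0 hF0C haF0
  exact hn.trans ((hwn n).trans hfinal)

/-- `Z` is connected from `a`. -/
def Conn (E : V → V → Prop) (a : V) (Z : Set V) : Prop :=
  ∀ z ∈ Z, Relation.ReflTransGen (fun x y => E x y ∧ y ∈ Z) a z

theorem adm_singleton (h : Adm E A B ∅) (ha : a ∈ A) : Adm E A B {a} := by
  intro D m hw a' ha'
  by_contra hD
  have haD : a ∉ D := fun h => Set.disjoint_left.1 hw.disj h rfl
  have hne : ∀ v ∈ insert a D, v ∉ A → v ∈ D := by
    rintro v (rfl | hv) hvA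
    · exact absurd ha hvA
    · exact hv
  have hwarp : IsWarp E A (insert a D) m := by
    constructor
    · intro v hv hvA
      exact Or.inr (hw.warp.mem v (hne v hv hvA) hvA)
    · intro v hv hvA
      exact hw.warp.edge v (hne v hv hvA) hvA
    · intro u hu v hv huA hvA huv
      exact hw.warp.inj u (hne u hu huA) v (hne v hv hvA) huA hvA huv
    · rintro v (rfl | hv)
      · exact ⟨0, ha⟩
      · exact hw.warp.fin v hv
  have hter : ter A D m ∪ {a} ⊆ ter A (insert a D) m ∪ ∅ := by
    rintro v (hv | rfl)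
    · exact Or.inl ⟨Or.inr hv.1, fun u hu huA => hv.2 u (hne u hu huA) huA⟩
    · refine Or.inl ⟨Or.inl rfl, ?_⟩
      rintro u hu huA rfl
      exact haD (hw.warp.mem u (hne u hu huA) huA)
  have hwave : IsWave E A B ∅ (insert a D) m :=
    ⟨hwarp, Set.disjoint_empty _, hw.roof.trans (RF_mono hter)⟩
  rcases h _ _ hwave ⟨ha'.1, Set.notMem_empty _⟩ with h' | h'
  · exact ha'.2 h'
  · exact hD h'

/-- The main theorem in the internal language. -/
theorem core (h : Adm E A B ∅) (ha : a ∈ A) :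
    ∃ Z, Indep E A B a Z ∧ Conn E a Z ∧ ∃ b ∈ Z, b ∈ B := by
  obtain ⟨Z, -, hZ⟩ := zorn_subset_nonempty {Z : Set V | Indep E A B a Z ∧ Conn E a Z} (by
    intro c hc hchain hne
    refine ⟨⋃₀ c, ⟨⟨?_, ?_, ?_⟩, ?_⟩, fun s hs => Set.subset_sUnion_of_mem hs⟩
    · obtain ⟨s, hs⟩ := hne
      exact ⟨s, hs, (hc hs).1.mem⟩
    · rintro z ⟨s, hs, hz⟩ hzA
      exact (hc hs).1.inter z hz hzA
    · intro F hF hFc haF
      obtain ⟨s, hs, hFs⟩ := hchain.directedOn.exists_mem_subset_of_finite_of_subset_sUnion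
        hne hF hFc
      exact (hc hs).1.adm F hF hFs haF
    · rintro z ⟨s, hs, hz⟩
      refine Relation.ReflTransGen.mono ?_ _ _ ((hc hs).2 z hz)
      intro x y hxy
      exact ⟨hxy.1, s, hs, hxy.2⟩) {a} ⟨⟨rfl, fun z hz _ => hz, by
        intro F _ hF haF
        have : F = {a} := Set.Subset.antisymm hF (Set.singleton_subset_iff.2 haF)
        rw [this]
        exact adm_singleton h ha⟩, by
        rintro z rfl
        exact Relation.ReflTransGen.refl⟩
  obtain ⟨⟨hI, hC⟩, hmax⟩ := hZ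
  refine ⟨Z, hI, hC, ?_⟩
  by_contra hB
  push Not at hB
  -- out-neighbours of `Z` are in closures
  have hN : ∀ z ∈ Z, ∀ w, E z w → ∃ F : Set V, F.Finite ∧ F ⊆ Z ∧ a ∈ F ∧ w ∈ cl E A B F := by
    intro z hz w hE
    by_contra hc
    push Not at hc
    have hw1 : w ∉ A := fun hA => hc {a} (Set.finite_singleton a)
      (Set.singleton_subset_iff.2 hI.mem) rfl (A_sub_cl hA)
    have hw2 : w ∉ Z := fun hwZ => hc {a, w} ((Set.finite_singleton w).insert a)
      (Set.insert_subset hI.mem (Set.singleton_subset_iff.2 hwZ)) (Or.inl rfl)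
      (sub_cl (Or.inr rfl))
    apply hw2
    have hmem : insert w Z ∈ {Z : Set V | Indep E A B a Z ∧ Conn E a Z} := by
      refine ⟨⟨Or.inr hI.mem, ?_, ?_⟩, ?_⟩
      · rintro v (rfl | hv) hvA
        · exact absurd hvA hw1
        · exact hI.inter v hv hvA
      · intro F hF hFZ haF
        by_cases hwF : w ∈ F
        · have hFw : insert w (F \ {w}) = F := by
            rw [Set.insert_sdiff_singleton, Set.insert_eq_of_mem hwF]
          have h1 : F \ {w} ⊆ Z := by
            rintro v ⟨hv, hvw⟩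
            rcases hFZ hv with h' | h'
            · exact absurd h' hvw
            · exact h'
          have haw : a ∈ F \ {w} := ⟨haF, by rintro rfl; exact hw2 hI.mem⟩
          have hfin : (F \ {w}).Finite := hF.subset Set.sdiff_subset
          rw [← hFw]
          exact (hI.adm _ hfin h1 haw).insert_of_notMem (hc _ hfin h1 haw)
        · refine hI.adm F hF ?_ haF
          intro v hv
          rcases hFZ hv with rfl | h'
          · exact absurd hv hwF
          · exact h'
      · have hmono : ∀ v ∈ Z, Relation.ReflTransGen (fun x y => E x y ∧ y ∈ insert w Z) a v := by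
          intro v hv
          refine Relation.ReflTransGen.mono ?_ _ _ (hC v hv)
          intro x y hxy
          exact ⟨hxy.1, Or.inr hxy.2⟩
        rintro v (rfl | hv)
        · exact (hmono z hz).tail ⟨hE, Or.inl rfl⟩
        · exact hmono v hv
    exact hmax hmem (Set.subset_insert w Z) (Or.inl rfl)
  -- the final wave
  obtain ⟨D, m, hw, hcl⟩ := exists_max_wave E A B (Ext E A B a Z)
  have haX : a ∈ Ext E A B a Z := ⟨hI.mem, fun F _ _ haF haF' => absurd haF haF'⟩
  have hwave : IsWave E A B ∅ D m := by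
    refine hw.restrict (Set.empty_subset _) ?_
    intro v hv _
    refine ⟨hB v hv.1, ?_⟩
    intro w hE
    obtain ⟨F, hF, hFZ, haF, hwF⟩ := hN v hv.1 w hE
    rw [hcl]
    exact hI.star hF hFZ haF hwF
  have haD : a ∈ D := h _ _ hwave ⟨ha, Set.notMem_empty _⟩
  exact Set.disjoint_left.1 hw.disj haD haX

end Pool.Webs
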