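import Mathlib

/-!
# Webs, paths, warps, waves and hindrances

The definitions of the problem `MP_f2e29e_co`.
-/

universe u

namespace Pool.WebLink

/-- A web `Γ = (G, A, B)`: a directed graph `G` with vertex type `V` (of arbitrary cardinality)
and edge relation `E`, and two sets `A`, `B` of vertices. -/
structure Web (V : Type u) where
  E : V → V → Prop
  A : Set V
  B : Set V

namespace Web

variable {V : Type u}

/-- A directed simple path of `Γ`, finite or infinite. It has `len` edges, where `len = ⊤` for an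
infinite path, and its vertices are the `vtx i` with `i ≤ len`, in this order (the values `vtx i`
with `i > len` play no role). It has the initial vertex `vtx 0`; a path with `len = 0` consists of
one vertex. -/
structure Path (Γ : Web V) where
  len : ℕ∞
  vtx : ℕ → V
  edge : ∀ i : ℕ, (i : ℕ∞) < len → Γ.E (vtx i) (vtx (i + 1))
  simple : ∀ i j : ℕ, (i : ℕ∞) ≤ len → (j : ℕ∞) ≤ len → vtx i = vtx j → i = j

variable {Γ : Web V}

/-- `V(P)` -/
def Path.verts (P : Γ.Path) : Set V := {v | ∃ i : ℕ, (i : ℕ∞) ≤ P.len ∧ P.vtx i = v}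

/-- `in(P)` -/
def Path.init (P : Γ.Path) : V := P.vtx 0

/-- `P` is finite and `v` is its terminal vertex. -/
def Path.IsTer (P : Γ.Path) (v : V) : Prop := ∃ n : ℕ, P.len = n ∧ P.vtx n = v

/-- `P` is an `A`–`B` path: a finite path with first vertex in `A` and last vertex in `B`. -/
def Path.IsAB (P : Γ.Path) : Prop := P.init ∈ Γ.A ∧ ∃ b ∈ Γ.B, P.IsTer b

/-- `S` is `A`–`B` separating: every `A`–`B` path contains a vertex of `S`. -/
def Separates (Γ : Web V) (S : Set V) : Prop := ∀ P : Γ.Path, P.IsAB → ∃ v ∈ P.verts, v ∈ S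

/-- `W` is a warp: its members are pairwise vertex-disjoint. -/
def IsWarp (W : Set Γ.Path) : Prop := ∀ P ∈ W, ∀ Q ∈ W, P ≠ Q → Disjoint P.verts Q.verts

/-- `in[W]` -/
def initSet (W : Set Γ.Path) : Set V := {v | ∃ P ∈ W, P.init = v}

/-- `ter[W]` -/
def terSet (W : Set Γ.Path) : Set V := {v | ∃ P ∈ W, P.IsTer v}

/-- `W` is a wave: a warp all of whose paths start in `A` and whose set of terminal vertices is
`A`–`B` separating. -/
def IsWave (W : Set Γ.Path) : Prop :=
  IsWarp W ∧ (∀ P ∈ W, P.init ∈ Γ.A) ∧ Γ.Separates (terSet W)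

/-- A web is hindered if it contains a hindrance: a wave `W` with `in[W] ≠ A`. -/
def Hindered (Γ : Web V) : Prop := ∃ W : Set Γ.Path, IsWave W ∧ initSet W ≠ Γ.A

/-- The web obtained by deleting the set `S` of vertices:
`(G - S, A \ S, B \ S)`, where `G - S` is the subgraph induced on the complement of `S`. -/
def minus (Γ : Web V) (S : Set V) : Web {v : V // v ∉ S} where
  E x y := Γ.E x y
  A := {x | (x : V) ∈ Γ.A}
  B := {x | (x : V) ∈ Γ.B}

end Web

end Pool.WebLink
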