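import Pool.Agent.Webs.Core
import Pool.Agent.Webs.Defs

/-!
Translation between the two representations of waves.
-/

universe u

namespace Pool.WebLink

open Pool.Webs (Esc RF Adm OnPath cl)

variable {V : Type u} {Γ : Web V}

/-- A path whose vertices avoid `T` gives an escape. -/
theorem esc_of_path (P : Γ.Path) {n : ℕ} (hn : P.len = n) (hB : P.vtx n ∈ Γ.B) {T : Set V}
    (hT : ∀ v ∈ P.verts, v ∉ T) : Esc Γ.E Γ.B T P.init := by
  have hv : ∀ i ≤ n, P.vtx i ∉ T := fun i hi => hT _ ⟨i, by rw [hn]; exact_mod_cast hi, rfl⟩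
  have key : ∀ k ≤ n, Esc Γ.E Γ.B T (P.vtx (n - k)) := by
    intro k
    induction k with
    | zero => exact fun _ => Esc.base hB (hv n le_rfl)
    | succ k ih =>
      intro hk
      have h1 := P.edge (n - (k + 1)) (by rw [hn]; exact_mod_cast (by omega : n - (k + 1) < n))
      rw [show n - (k + 1) + 1 = n - k by omega] at h1
      exact Esc.step (hv _ (by omega)) h1 (ih (by omega))
  have := key n le_rfl
  rwa [Nat.sub_self] at this

/-- An escape gives a simple path. -/
theorem path_of_esc {T : Set V} {v : V} (h : Esc Γ.E Γ.B T v) :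
    ∃ P : Γ.Path, ∃ n : ℕ, P.len = n ∧ P.init = v ∧ P.vtx n ∈ Γ.B ∧ ∀ w ∈ P.verts, w ∉ T := by
  induction h with
  | @base v hB hT =>
    refine ⟨⟨0, fun _ => v, ?_, ?_⟩, 0, rfl, rfl, hB, ?_⟩
    · intro i hi; exact absurd hi (by simp)
    · intro i j hi hj _
      have hi' : i = 0 := by simpa using hi
      have hj' : j = 0 := by simpa using hj
      rw [hi', hj']
    · rintro w ⟨i, _, rfl⟩; exact hT
  | @step v w hT hE _ ih =>
    obtain ⟨P, n, hn, hw, hB, hPT⟩ := ih
    by_cases hv : v ∈ P.verts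
    · obtain ⟨i, hi, hiv⟩ := hv
      have hin : i ≤ n := by rw [hn] at hi; exact_mod_cast hi
      refine ⟨⟨((n - i : ℕ) : ℕ∞), fun k => P.vtx (i + k), ?_, ?_⟩, n - i, rfl, hiv, ?_, ?_⟩
      · intro k hk
        have hk' : k < n - i := by exact_mod_cast hk
        exact P.edge (i + k) (by rw [hn]; exact_mod_cast (by omega : i + k < n))
      · intro k l hk hl hkl
        have hk' : k ≤ n - i := by exact_mod_cast hk
        have hl' : l ≤ n - i := by exact_mod_cast hl
        have := P.simple (i + k) (i + l) (by rw [hn]; exact_mod_cast (by omega : i + k ≤ n))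
          (by rw [hn]; exact_mod_cast (by omega : i + l ≤ n)) hkl
        omega
      · simp only
        rw [show i + (n - i) = n by omega]
        exact hB
      · rintro u ⟨k, hk, rfl⟩
        replace hk : (k : ℕ∞) ≤ ((n - i : ℕ) : ℕ∞) := hk
        have hk' : k ≤ n - i := by exact_mod_cast hk
        exact hPT _ ⟨i + k, by rw [hn]; exact_mod_cast (by omega : i + k ≤ n), rfl⟩
    · refine ⟨⟨((n + 1 : ℕ) : ℕ∞), fun k => if k = 0 then v else P.vtx (k - 1), ?_, ?_⟩, n + 1,
        rfl, rfl, ?_, ?_⟩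
      · intro k hk
        have hk' : k < n + 1 := by exact_mod_cast hk
        by_cases h0 : k = 0
        · subst h0
          simp only [if_true, zero_add, one_ne_zero, if_false, Nat.sub_self]
          rw [← hw] at hE
          exact hE
        · simp only [if_neg h0, Nat.succ_ne_zero, if_false, Nat.add_sub_cancel]
          have := P.edge (k - 1) (by rw [hn]; exact_mod_cast (by omega : k - 1 < n))
          rwa [show k - 1 + 1 = k by omega] at this
      · intro k l hk hl hkl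
        have hk' : k ≤ n + 1 := by exact_mod_cast hk
        have hl' : l ≤ n + 1 := by exact_mod_cast hl
        by_cases h0 : k = 0 <;> by_cases h1 : l = 0
        · omega
        · simp only [if_pos h0, if_neg h1] at hkl
          exact absurd ⟨l - 1, by rw [hn]; exact_mod_cast (by omega : l - 1 ≤ n), hkl.symm⟩ hv
        · simp only [if_neg h0, if_pos h1] at hkl
          exact absurd ⟨k - 1, by rw [hn]; exact_mod_cast (by omega : k - 1 ≤ n), hkl⟩ hv
        · simp only [if_neg h0, if_neg h1] at hkl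
          have := P.simple (k - 1) (l - 1) (by rw [hn]; exact_mod_cast (by omega : k - 1 ≤ n))
            (by rw [hn]; exact_mod_cast (by omega : l - 1 ≤ n)) hkl
          omega
      · simp only [Nat.succ_ne_zero, if_false, Nat.add_sub_cancel]
        exact hB
      · rintro u ⟨k, hk, rfl⟩
        replace hk : (k : ℕ∞) ≤ ((n + 1 : ℕ) : ℕ∞) := hk
        have hk' : k ≤ n + 1 := by exact_mod_cast hk
        by_cases h0 : k = 0
        · simp only [if_pos h0]; exact hT
        · simp only [if_neg h0]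
          exact hPT _ ⟨k - 1, by rw [hn]; exact_mod_cast (by omega : k - 1 ≤ n), rfl⟩

/-- Separation in terms of roofing. -/
theorem separates_iff (T : Set V) : Γ.Separates T ↔ Γ.A ⊆ RF Γ.E Γ.B T := by
  constructor
  · intro h a ha hesc
    obtain ⟨P, n, hn, hv, hB, hT⟩ := path_of_esc hesc
    obtain ⟨v, hv1, hv2⟩ := h P ⟨hv ▸ ha, P.vtx n, hB, n, hn, rfl⟩
    exact hT v hv1 hv2
  · rintro h P ⟨hA, b, hb, n, hn, hnb⟩
    by_contra hc
    push Not at hc
    exact h hA (esc_of_path P hn (hnb ▸ hb) hc)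

/-- A path of waves in the internal representation. -/
theorem exists_path {D : Set V} {m : V → V} (h : Webs.IsWarp Γ.E Γ.A D m) {t : V} (ht : t ∈ D) :
    ∃ P : Γ.Path, ∃ n : ℕ, P.len = n ∧ P.init ∈ Γ.A ∧ P.vtx n = t ∧
      ∀ w ∈ P.verts, ∃ k ≤ n, m^[k] t = w ∧ w ∈ D ∧ ∀ i < k, m^[i] t ∈ D ∧ m^[i] t ∉ Γ.A := by
  classical
  have hex := h.fin t ht
  set n := Nat.find hex with hn
  have hnA : m^[n] t ∈ Γ.A := Nat.find_spec hex
  have hmin : ∀ k < n, m^[k] t ∉ Γ.A := fun k hk => Nat.find_min hex hk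
  have hD : ∀ k ≤ n, m^[k] t ∈ D := by
    intro k
    induction k with
    | zero => exact fun _ => ht
    | succ k ih =>
      intro hk
      rw [Function.iterate_succ_apply']
      exact h.mem _ (ih (by omega)) (hmin k (by omega))
  have hinj : ∀ i j, i < j → j ≤ n → m^[i] t ≠ m^[j] t := by
    intro i j hij hj he
    have : m^[n - j + i] t = m^[n] t := by
      rw [Function.iterate_add_apply, he, ← Function.iterate_add_apply,
        Nat.sub_add_cancel hj]
    exact hmin (n - j + i) (by omega) (this ▸ hnA)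
  refine ⟨⟨(n : ℕ∞), fun i => m^[n - i] t, ?_, ?_⟩, n, rfl, ?_, ?_, ?_⟩
  · intro i hi
    have hi' : i < n := by exact_mod_cast hi
    have h1 := h.edge _ (hD (n - (i + 1)) (by omega)) (hmin _ (by omega))
    rw [← Function.iterate_succ_apply' m, show (n - (i + 1)).succ = n - i by omega] at h1
    exact h1
  · intro i j hi hj hij
    have hi' : i ≤ n := by exact_mod_cast hi
    have hj' : j ≤ n := by exact_mod_cast hj
    rcases lt_trichotomy i j with hlt | heq | hlt
    · exact absurd hij.symm (hinj (n - j) (n - i) (by omega) (by omega))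
    · exact heq
    · exact absurd hij (hinj (n - i) (n - j) (by omega) (by omega))
  · simp only [Web.Path.init, Nat.sub_zero]
    exact hnA
  · simp only [Nat.sub_self, Function.iterate_zero, id_eq]
  · rintro w ⟨i, hi, rfl⟩
    replace hi : (i : ℕ∞) ≤ (n : ℕ∞) := hi
    have hi' : i ≤ n := by exact_mod_cast hi
    refine ⟨n - i, by omega, rfl, hD _ (by omega), ?_⟩
    intro k hk
    exact ⟨hD k (by omega), hmin k (by omega)⟩

theorem ter_unique {E : V → V → Prop} {A D : Set V} {m : V → V} (h : Webs.IsWarp E A D m)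
    {t t' : V} (ht : t ∈ Webs.ter A D m) (ht' : t' ∈ Webs.ter A D m) :
    ∀ (k k' : ℕ), (∀ i < k, m^[i] t ∈ D ∧ m^[i] t ∉ A) → (∀ i < k', m^[i] t' ∈ D ∧ m^[i] t' ∉ A) →
      m^[k] t = m^[k'] t' → t = t' := by
  intro k
  induction k with
  | zero =>
    intro k' _ h' he
    cases k' with
    | zero => exact he
    | succ k' =>
      rw [Function.iterate_succ_apply'] at he
      obtain ⟨h1, h2⟩ := h' k' (by omega)
      exact absurd he.symm (ht.2 _ h1 h2)
  | succ k ih =>
    intro k' hk h' he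
    cases k' with
    | zero =>
      rw [Function.iterate_succ_apply'] at he
      obtain ⟨h1, h2⟩ := hk k (by omega)
      exact absurd he (ht'.2 _ h1 h2)
    | succ k' =>
      rw [Function.iterate_succ_apply', Function.iterate_succ_apply'] at he
      obtain ⟨h1, h2⟩ := hk k (by omega)
      obtain ⟨h3, h4⟩ := h' k' (by omega)
      exact ih k' (fun i hi => hk i (by omega)) (fun i hi => h' i (by omega))
        (h.inj _ h1 _ h3 h2 h4 he)

/-- An unhindered web is unhindered in the internal sense. -/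
theorem adm_of_unhindered (hΓ : ¬ Γ.Hindered) : Adm Γ.E Γ.A Γ.B ∅ := by
  classical
  intro D m hw a0 ha0
  by_contra hD
  apply hΓ
  have hex : ∀ t : {t // t ∈ Webs.ter Γ.A D m}, ∃ P : Γ.Path, ∃ n : ℕ, P.len = n ∧
      P.init ∈ Γ.A ∧ P.vtx n = t.1 ∧
      ∀ w ∈ P.verts, ∃ k ≤ n, m^[k] t.1 = w ∧ w ∈ D ∧
        ∀ i < k, m^[i] t.1 ∈ D ∧ m^[i] t.1 ∉ Γ.A :=
    fun t => exists_path hw.warp t.2.1
  choose P n hlen hinit hter hverts using hex
  refine ⟨Set.range P, ⟨?_, ?_, ?_⟩, ?_⟩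
  · rintro _ ⟨t, rfl⟩ _ ⟨t', rfl⟩ hne
    rw [Set.disjoint_left]
    intro v hv hv'
    obtain ⟨k, _, hk, _, hkD⟩ := hverts t v hv
    obtain ⟨k', _, hk', _, hkD'⟩ := hverts t' v hv'
    apply hne
    have : t.1 = t'.1 := ter_unique hw.warp t.2 t'.2 k k' hkD hkD' (hk.trans hk'.symm)
    rw [Subtype.ext this]
  · rintro _ ⟨t, rfl⟩
    exact hinit t
  · rw [separates_iff]
    have hsub : Webs.ter Γ.A D m ∪ ∅ ⊆ Web.terSet (Set.range P) := by
      rintro t (ht | ht)
      · exact ⟨P ⟨t, ht⟩, ⟨_, rfl⟩, n ⟨t, ht⟩, hlen _, hter _⟩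
      · exact absurd ht (Set.notMem_empty _)
    exact hw.roof.trans (Webs.RF_mono hsub)
  · intro heq
    have : a0 ∈ Web.initSet (Set.range P) := by rw [heq]; exact ha0.1
    obtain ⟨_, ⟨t, rfl⟩, hta⟩ := this
    obtain ⟨_, _, _, hDa, _⟩ := hverts t (P t).init ⟨0, by simp, rfl⟩
    exact hD (hta ▸ hDa)

/-- Conversely. -/
theorem unhindered_of_adm (h : Adm Γ.E Γ.A Γ.B ∅) : ¬ Γ.Hindered := by
  classical
  rintro ⟨W, ⟨hwarp, hinit, hsep⟩, hne⟩
  -- a missing vertex
  obtain ⟨a0, ha0, ha0W⟩ : ∃ a0 ∈ Γ.A, a0 ∉ Web.initSet W := by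
    by_contra hc
    push Not at hc
    apply hne
    apply Set.Subset.antisymm
    · rintro v ⟨P, hP, rfl⟩; exact hinit P hP
    · exact hc
  have huniq : ∀ P ∈ W, ∀ Q ∈ W, ∀ i j : ℕ, (i : ℕ∞) ≤ P.len → (j : ℕ∞) ≤ Q.len →
      P.vtx i = Q.vtx j → P = Q ∧ i = j := by
    intro P hP Q hQ i j hi hj hij
    have hPQ : P = Q := by
      by_contra hc
      exact Set.disjoint_left.1 (hwarp P hP Q hQ hc) ⟨i, hi, rfl⟩ ⟨j, hj, hij.symm⟩
    subst hPQ
    exact ⟨rfl, P.simple i j hi hj hij⟩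
  let pr : V → V → Prop := fun v w => ∃ P ∈ W, ∃ i : ℕ, ((i + 1 : ℕ) : ℕ∞) ≤ P.len ∧
    P.vtx (i + 1) = v ∧ P.vtx i = w
  let m : V → V := fun v => if h : ∃ w, pr v w then h.choose else v
  have hm : ∀ P ∈ W, ∀ i : ℕ, ((i + 1 : ℕ) : ℕ∞) ≤ P.len → m (P.vtx (i + 1)) = P.vtx i := by
    intro P hP i hi
    have hex : ∃ w, pr (P.vtx (i + 1)) w := ⟨P.vtx i, P, hP, i, hi, rfl, rfl⟩
    have h1 : m (P.vtx (i + 1)) = hex.choose := by simp only [m, dif_pos hex]
    obtain ⟨Q, hQ, j, hj, hj1, hj2⟩ := hex.choose_spec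
    obtain ⟨hPQ, hij⟩ := huniq Q hQ P hP (j + 1) (i + 1) hj hi hj1
    subst hPQ
    have : j = i := by omega
    subst this
    rw [h1]
    exact hj2.symm
  set D : Set V := {v | ∃ P ∈ W, ∃ n : ℕ, P.len = n ∧ ∃ i ≤ n, P.vtx i = v ∧
    ∀ k, i < k → k ≤ n → P.vtx k ∉ Γ.A} with hD
  have hstep : ∀ v ∈ D, v ∉ Γ.A → ∃ P ∈ W, ∃ n : ℕ, P.len = n ∧ ∃ i, i + 1 ≤ n ∧
      P.vtx (i + 1) = v ∧ ∀ k, i < k → k ≤ n → P.vtx k ∉ Γ.A := by
    rintro v ⟨P, hP, n, hn, i, hi, rfl, hk⟩ hvA
    cases i with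
    | zero => exact absurd (hinit P hP) hvA
    | succ i =>
      refine ⟨P, hP, n, hn, i, hi, rfl, ?_⟩
      intro k hik hkn
      rcases Nat.lt_or_ge (i + 1) k with h' | h'
      · exact hk k h' hkn
      · have : k = i + 1 := by omega
        rw [this]; exact hvA
  have hW : Webs.IsWarp Γ.E Γ.A D m := by
    constructor
    · intro v hv hvA
      obtain ⟨P, hP, n, hn, i, hi, rfl, hk⟩ := hstep v hv hvA
      rw [hm P hP i (by rw [hn]; exact_mod_cast hi)]
      exact ⟨P, hP, n, hn, i, by omega, rfl, hk⟩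
    · intro v hv hvA
      obtain ⟨P, hP, n, hn, i, hi, rfl, hk⟩ := hstep v hv hvA
      rw [hm P hP i (by rw [hn]; exact_mod_cast hi)]
      exact P.edge i (by rw [hn]; exact_mod_cast hi)
    · intro u hu v hv huA hvA huv
      obtain ⟨P, hP, n, hn, i, hi, rfl, _⟩ := hstep u hu huA
      obtain ⟨Q, hQ, n', hn', j, hj, rfl, _⟩ := hstep v hv hvA
      rw [hm P hP i (by rw [hn]; exact_mod_cast hi),
        hm Q hQ j (by rw [hn']; exact_mod_cast hj)] at huv
      obtain ⟨rfl, rfl⟩ := huniq P hP Q hQ i j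
        (by rw [hn]; exact_mod_cast (by omega : i ≤ n))
        (by rw [hn']; exact_mod_cast (by omega : j ≤ n')) huv
      rfl
    · rintro v ⟨P, hP, n, hn, i, hi, rfl, _⟩
      refine ⟨i, ?_⟩
      have key : ∀ i ≤ n, m^[i] (P.vtx i) = P.vtx 0 := by
        intro i
        induction i with
        | zero => exact fun _ => rfl
        | succ i ih =>
          intro hi
          rw [Function.iterate_succ_apply, hm P hP i (by rw [hn]; exact_mod_cast hi)]
          exact ih (by omega)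
      rw [key i hi]
      exact hinit P hP
  have hter : Web.terSet W ⊆ Webs.ter Γ.A D m := by
    rintro t ⟨P, hP, n, hn, rfl⟩
    refine ⟨⟨P, hP, n, hn, n, le_rfl, rfl, fun k h1 h2 => absurd h1 (by omega)⟩, ?_⟩
    intro u hu huA hut
    obtain ⟨Q, hQ, n', hn', j, hj, rfl, _⟩ := hstep u hu huA
    rw [hm Q hQ j (by rw [hn']; exact_mod_cast hj)] at hut
    obtain ⟨rfl, rfl⟩ := huniq Q hQ P hP j n
      (by rw [hn']; exact_mod_cast (by omega : j ≤ n')) (by rw [hn]) hut
    rw [hn] at hn'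
    have : j = n' := by exact_mod_cast hn'
    omega
  have hwave : Webs.IsWave Γ.E Γ.A Γ.B ∅ D m := by
    refine ⟨hW, Set.disjoint_empty _, ?_⟩
    exact ((separates_iff _).1 hsep).trans
      (Webs.RF_mono (hter.trans Set.subset_union_left))
  have hAD : ∀ a ∈ Γ.A, a ∈ D := fun a ha => h D m hwave ⟨ha, Set.notMem_empty _⟩
  obtain ⟨P, hP, n, hn, i, hi, hia, _⟩ := hAD a0 ha0
  have hi0 : i ≠ 0 := by
    rintro rfl
    exact ha0W ⟨P, hP, hia⟩
  obtain ⟨Q, hQ, n', hn', j, hj, hj0, hk⟩ := hAD P.init (hinit P hP)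
  obtain ⟨rfl, rfl⟩ := huniq Q hQ P hP j 0
    (by rw [hn']; exact_mod_cast hj) (by simp) hj0
  rw [hn] at hn'
  have hnn : n = n' := by exact_mod_cast hn'
  exact hk i (by omega) (by omega) (hia ▸ ha0)

/-- Deleting a set of vertices. -/
theorem adm_minus (S : Set V) (h : Adm Γ.E Γ.A Γ.B S) :
    Adm (Γ.minus S).E (Γ.minus S).A (Γ.minus S).B ∅ := by
  classical
  intro D' m' hw a0 ha0
  let m : V → V := fun v => if h : v ∉ S then (m' ⟨v, h⟩ : V) else v
  have hm : ∀ x : {v : V // v ∉ S}, m x.1 = (m' x : V) := by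
    intro x
    simp only [m]
    rw [dif_pos x.2]
  set D : Set V := Subtype.val '' D' with hD
  have hwarp : Webs.IsWarp Γ.E Γ.A D m := by
    constructor
    · rintro _ ⟨x, hx, rfl⟩ hA
      rw [hm]
      exact ⟨m' x, hw.warp.mem x hx hA, rfl⟩
    · rintro _ ⟨x, hx, rfl⟩ hA
      rw [hm]
      exact hw.warp.edge x hx hA
    · rintro _ ⟨x, hx, rfl⟩ _ ⟨y, hy, rfl⟩ hxA hyA hxy
      rw [hm, hm] at hxy
      rw [hw.warp.inj x hx y hy hxA hyA (Subtype.ext hxy)]
    · rintro _ ⟨x, hx, rfl⟩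
      obtain ⟨n, hn⟩ := hw.warp.fin x hx
      refine ⟨n, ?_⟩
      have key : ∀ (n : ℕ) (x : {v : V // v ∉ S}), m^[n] x.1 = (m'^[n] x : V) := by
        intro n
        induction n with
        | zero => exact fun x => rfl
        | succ n ih =>
          intro x
          rw [Function.iterate_succ_apply, Function.iterate_succ_apply, hm, ih]
      rw [key]
      exact hn
  have hter : ∀ x ∈ Webs.ter (Γ.minus S).A D' m', (x : V) ∈ Webs.ter Γ.A D m := by
    rintro x ⟨hx, hx'⟩
    refine ⟨⟨x, hx, rfl⟩, ?_⟩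
    rintro _ ⟨y, hy, rfl⟩ hyA hyx
    rw [hm] at hyx
    exact hx' y hy hyA (Subtype.ext hyx)
  have hesc : ∀ v, Esc Γ.E Γ.B (Webs.ter Γ.A D m ∪ S) v → ∀ h : v ∉ S,
      Esc (Γ.minus S).E (Γ.minus S).B (Webs.ter (Γ.minus S).A D' m' ∪ ∅) ⟨v, h⟩ := by
    intro v hv
    induction hv with
    | @base v hB hn =>
      intro h'
      refine Esc.base hB ?_
      rintro (h1 | h1)
      · exact hn (Or.inl (hter _ h1))
      · exact h1
    | @step v w hn hE hesc' ih =>
      intro h'
      have hwS : w ∉ S := fun hx => hesc'.not_mem (Or.inr hx)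
      refine Esc.step (w := ⟨w, hwS⟩) ?_ hE (ih hwS)
      rintro (h1 | h1)
      · exact hn (Or.inl (hter _ h1))
      · exact h1
  have hwave : Webs.IsWave Γ.E Γ.A Γ.B S D m := by
    refine ⟨hwarp, ?_, ?_⟩
    · rw [Set.disjoint_left]
      rintro _ ⟨x, _, rfl⟩
      exact x.2
    · intro a ha hesca
      have haS : a ∉ S := fun hx => hesca.not_mem (Or.inr hx)
      exact hw.roof (show (⟨a, haS⟩ : {v : V // v ∉ S}) ∈ (Γ.minus S).A from ha)
        (hesc a hesca haS)
  obtain ⟨x, hx, hxa⟩ := h D m hwave ⟨ha0.1, a0.2⟩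
  rw [← Subtype.ext hxa]
  exact hx

/-- The theorem. -/
theorem link (hΓ : ¬ Γ.Hindered) {a : V} (ha : a ∈ Γ.A) :
    ∃ P : Γ.Path, P.init = a ∧ P.IsAB ∧ ¬ (Γ.minus P.verts).Hindered := by
  obtain ⟨Z, hI, hC, b, hbZ, hbB⟩ := Webs.core (adm_of_unhindered hΓ) ha
  have hesc : Esc Γ.E Γ.B Zᶜ a := by
    have key : ∀ z, Relation.ReflTransGen (fun x y => Γ.E x y ∧ y ∈ Z) z b → z ∈ Z →
        Esc Γ.E Γ.B Zᶜ z := by
      intro z hz
      induction hz using Relation.ReflTransGen.head_induction_on with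
      | refl => exact fun _ => Esc.base hbB (fun h => h hbZ)
      | head h' _ ih => exact fun hz => Esc.step (fun h => h hz) h'.1 (ih h'.2)
    exact key a (hC b hbZ) hI.mem
  obtain ⟨P, n, hn, hinit, hB, hPZ⟩ := path_of_esc hesc
  refine ⟨P, hinit, ⟨hinit ▸ ha, P.vtx n, hB, n, hn, rfl⟩, ?_⟩
  apply unhindered_of_adm
  apply adm_minus
  apply hI.adm
  · have : P.verts ⊆ P.vtx '' (Set.Iic n) := by
      rintro v ⟨i, hi, rfl⟩
      rw [hn] at hi
      exact ⟨i, by exact_mod_cast hi, rfl⟩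
    exact ((Set.finite_Iic n).image _).subset this
  · intro v hv
    by_contra hc
    exact hPZ v hv hc
  · exact ⟨0, by simp, hinit⟩

end Pool.WebLink
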