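import Pool.Agent.Webs.Basic

/-!
Waves of the web minus `X`, the arrow operation, maximal waves and the closure `cl`.
-/

universe u

namespace Pool.Webs

variable {V : Type u}

/-- `(D, m)` is a wave in the web minus `X`. -/
structure IsWave (E : V → V → Prop) (A B X D : Set V) (m : V → V) : Prop where
  warp : IsWarp E A D m
  disj : Disjoint D X
  roof : A ⊆ RF E B (ter A D m ∪ X)

/-- The web minus `X` is unhindered. -/
def Adm (E : V → V → Prop) (A B X : Set V) : Prop :=
  ∀ D m, IsWave E A B X D m → A \ X ⊆ D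

/-- The set of vertices roofed by some wave of the web minus `X`. -/
def cl (E : V → V → Prop) (A B X : Set V) : Set V :=
  {v | ∃ D m, IsWave E A B X D m ∧ v ∈ RF E B (ter A D m ∪ X)}

section

variable {E : V → V → Prop} {A B X X' D D' : Set V} {m m' : V → V}

theorem IsWave.sub_RF (h : IsWave E A B X D m) : D ⊆ RF E B (ter A D m ∪ X) :=
  h.warp.sub_RF h.disj h.roof

theorem IsWave.sub_cl (h : IsWave E A B X D m) : RF E B (ter A D m ∪ X) ⊆ cl E A B X :=
  fun _ hv => ⟨D, m, h, hv⟩

theorem IsWave.trim (h : IsWave E A B X D m) :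
    IsWave E A B X {v | ∃ t ∈ ter A D m, OnPath A m t v} m where
  warp := h.warp.trim
  disj := h.disj.mono_left h.warp.trim_sub
  roof := h.roof.trans (RF_mono (Set.union_subset_union_left _ h.warp.trim_ter))

/-- The trivial wave. -/
theorem isWave_triv : IsWave E A B X (A \ X) id := by
  have hw : IsWarp E A (A \ X) id := by
    constructor
    · intro v hv hA; exact absurd hv.1 hA
    · intro v hv hA; exact absurd hv.1 hA
    · intro u hu v hv huA; exact absurd hu.1 huA
    · intro v hv; exact ⟨0, hv.1⟩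
  refine ⟨hw, Set.disjoint_sdiff_left, ?_⟩
  refine Set.Subset.trans ?_ subset_RF
  intro a ha
  by_cases hX : a ∈ X
  · exact Or.inr hX
  · exact Or.inl ⟨⟨ha, hX⟩, fun u hu huA => absurd hu.1 huA⟩

theorem sub_cl : X ⊆ cl E A B X := fun _ hv =>
  ⟨_, _, isWave_triv, subset_RF (Or.inr hv)⟩

theorem A_sub_cl : A ⊆ cl E A B X := fun _ hv =>
  ⟨_, _, isWave_triv, isWave_triv.roof hv⟩

/-- The arrow operation on waves of the web minus `X` and the web minus `X'`. -/
theorem IsWave.arrow (h : IsWave E A B X D m) (h' : IsWave E A B X' D' m')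
    (hX : X ⊆ X') (hX' : X' ⊆ RF E B (ter A D m ∪ X)) :
    ∃ D'' m'', IsWave E A B X D'' m'' ∧ D ⊆ D'' ∧ (∀ v ∈ D, m'' v = m v) ∧
      RF E B (ter A D m ∪ X) ⊆ RF E B (ter A D'' m'' ∪ X) ∧
      RF E B (ter A D' m' ∪ X') ⊆ RF E B (ter A D'' m'' ∪ X) := by
  classical
  set R := RF E B (ter A D m ∪ X) with hR
  set D'' : Set V := D ∪ (D' \ R) with hD''
  set m'' : V → V := fun v => if v ∈ D then m v else m' v with hm''
  have hDR : D ⊆ R := h.sub_RF
  have e1 : ∀ v ∈ D, m'' v = m v := fun v hv => by simp only [hm'', if_pos hv]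
  have e2 : ∀ v, v ∉ R → m'' v = m' v := fun v hv => by
    simp only [hm'', if_neg (fun hD => hv (hDR hD))]
  have hdX : ∀ v ∈ D, v ∉ X := fun v hv => Set.disjoint_left.1 h.disj hv
  have hdX' : ∀ v ∈ D', v ∉ X' := fun v hv => Set.disjoint_left.1 h'.disj hv
  -- a predecessor in `R` of a vertex outside is terminal
  have hcross : ∀ v w, v ∈ R → w ∉ R → E v w → v ∉ X → v ∈ ter A D m := by
    intro v w hv hw hE hvX
    by_contra hc
    exact hw (RF_step hv (by rintro (h | h); exacts [hc h, hvX h]) hE)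
  have hmem' : ∀ v ∈ D', v ∉ R → v ∉ A → m' v ∈ D'' := by
    intro v hv hvR hvA
    by_cases hmR : m' v ∈ R
    · left
      exact (hcross _ _ hmR hvR (h'.warp.edge v hv hvA)
        (fun hx => hdX' _ (h'.warp.mem v hv hvA) (hX hx))).1
    · exact Or.inr ⟨h'.warp.mem v hv hvA, hmR⟩
  have hwarp : IsWarp E A D'' m'' := by
    constructor
    · rintro v (hv | ⟨hv, hvR⟩) hvA
      · rw [e1 v hv]; exact Or.inl (h.warp.mem v hv hvA)
      · rw [e2 v hvR]; exact hmem' v hv hvR hvA
    · rintro v (hv | ⟨hv, hvR⟩) hvA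
      · rw [e1 v hv]; exact h.warp.edge v hv hvA
      · rw [e2 v hvR]; exact h'.warp.edge v hv hvA
    · have cross : ∀ u ∈ D, ∀ v ∈ D', v ∉ R → u ∉ A → v ∉ A → m u = m' v → False := by
        intro u hu v hv hvR huA hvA huv
        have h1 : m u ∈ D := h.warp.mem u hu huA
        have h2 : E (m u) v := by rw [huv]; exact h'.warp.edge v hv hvA
        exact h.warp.not_ter hu huA (hcross _ _ (hDR h1) hvR h2 (hdX _ h1))
      rintro u (hu | ⟨hu, huR⟩) v (hv | ⟨hv, hvR⟩) huA hvA huv
      · rw [e1 u hu, e1 v hv] at huv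
        exact h.warp.inj u hu v hv huA hvA huv
      · rw [e1 u hu, e2 v hvR] at huv
        exact (cross u hu v hv hvR huA hvA huv).elim
      · rw [e2 u huR, e1 v hv] at huv
        exact (cross v hv u hu huR hvA huA huv.symm).elim
      · rw [e2 u huR, e2 v hvR] at huv
        exact h'.warp.inj u hu v hv huA hvA huv
    · have fD : ∀ v ∈ D, ∃ n : ℕ, m''^[n] v ∈ A := by
        refine h.warp.induct ?_ ?_
        · intro v _ hvA; exact ⟨0, hvA⟩
        · rintro v hv _ ⟨n, hn⟩
          refine ⟨n + 1, ?_⟩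
          rw [Function.iterate_succ_apply, e1 v hv]
          exact hn
      have fD' : ∀ v ∈ D', v ∈ D ∨ v ∉ R → ∃ n : ℕ, m''^[n] v ∈ A := by
        refine h'.warp.induct ?_ ?_
        · intro v _ hvA _; exact ⟨0, hvA⟩
        · intro v hv hvA ih hc
          rcases hc with hc | hc
          · exact fD v hc
          · have : m' v ∈ D ∨ m' v ∉ R := by
              rcases hmem' v hv hc hvA with h | h
              · exact Or.inl h
              · exact Or.inr h.2
            obtain ⟨n, hn⟩ := ih this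
            refine ⟨n + 1, ?_⟩
            rw [Function.iterate_succ_apply, e2 v hc]
            exact hn
      rintro v (hv | ⟨hv, hvR⟩)
      · exact fD v hv
      · exact fD' v hv (Or.inr hvR)
  -- terminal vertices
  have ht1 : ∀ t ∈ ter A D' m', t ∉ R → t ∈ ter A D'' m'' := by
    intro t ht htR
    refine ⟨Or.inr ⟨ht.1, htR⟩, ?_⟩
    rintro u (hu | ⟨hu, huR⟩) huA
    · rw [e1 u hu]
      rintro rfl
      exact htR (hDR (h.warp.mem u hu huA))
    · rw [e2 u huR]
      exact ht.2 u hu huA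
  have ht2 : ∀ t ∈ ter A D m, t ∉ ter A D'' m'' →
      t ∈ D' ∧ t ∉ ter A D' m' := by
    intro t ht htn
    have : ∃ u ∈ D'', u ∉ A ∧ m'' u = t := by
      by_contra hc
      push Not at hc
      exact htn ⟨Or.inl ht.1, hc⟩
    obtain ⟨u, hu | ⟨hu, huR⟩, huA, hut⟩ := this
    · rw [e1 u hu] at hut
      exact absurd hut (ht.2 u hu huA)
    · rw [e2 u huR] at hut
      rw [← hut]
      exact ⟨h'.warp.mem u hu huA, h'.warp.not_ter hu huA⟩
  have hD'R : D' ⊆ RF E B (ter A D' m' ∪ X') := h'.sub_RF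
  have hK : R ∪ RF E B (ter A D' m' ∪ X') ⊆ RF E B (ter A D'' m'' ∪ X) := by
    apply closed_sub_RF
    · rintro v hv hvT w hE
      have hvX : v ∉ X := fun hx => hvT (Or.inr hx)
      have hvt : v ∉ ter A D'' m'' := fun hx => hvT (Or.inl hx)
      by_cases hvR : v ∈ R
      · by_cases hvt' : v ∈ ter A D m
        · obtain ⟨h1, h2⟩ := ht2 v hvt' hvt
          right
          exact RF_step (hD'R h1) (by rintro (h | h); exacts [h2 h, hdX' v h1 h]) hE
        · left
          exact RF_step hvR (by rintro (h | h); exacts [hvt' h, hvX h]) hE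
      · rcases hv with hv | hv
        · exact absurd hv hvR
        · right
          exact RF_step hv (by
            rintro (h | h)
            · exact hvt (ht1 v h hvR)
            · exact hvR (hX' h)) hE
    · rintro v hv hvB
      by_cases hvR : v ∈ R
      · rcases RF_mem_of_B hvR hvB with h | h
        · by_contra hc
          obtain ⟨h1, h2⟩ := ht2 v h (fun h => hc (Or.inl h))
          rcases RF_mem_of_B (hD'R h1) hvB with h | h
          · exact h2 h
          · exact hdX' v h1 h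
        · exact Or.inr h
      · rcases hv with hv | hv
        · exact absurd hv hvR
        · rcases RF_mem_of_B hv hvB with h | h
          · exact Or.inl (ht1 v h hvR)
          · exact absurd (hX' h) hvR
  refine ⟨D'', m'', ⟨hwarp, ?_, ?_⟩, Set.subset_union_left, e1, ?_, ?_⟩
  · rw [Set.disjoint_left]
    rintro v (hv | ⟨hv, _⟩) hx
    · exact hdX v hv hx
    · exact hdX' v hv (hX hx)
  · exact h.roof.trans (Set.subset_union_left.trans hK)
  · exact Set.subset_union_left.trans hK
  · exact Set.subset_union_right.trans hK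

/-- There is a wave roofing everything that some wave roofs. -/
theorem exists_max_wave (E : V → V → Prop) (A B X : Set V) :
    ∃ D m, IsWave E A B X D m ∧ RF E B (ter A D m ∪ X) = cl E A B X := by
  classical
  -- waves
  let W := {p : Set V × (V → V) // IsWave E A B X p.1 p.2}
  let r : W → W → Prop := fun p q => p.1.1 ⊆ q.1.1 ∧ ∀ v ∈ p.1.1, q.1.2 v = p.1.2 v
  have rrefl : ∀ p, r p p := fun p => ⟨Set.Subset.rfl, fun v _ => rfl⟩
  have rtrans : ∀ {p q s : W}, r p q → r q s → r p s := by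
    intro p q s h1 h2
    exact ⟨h1.1.trans h2.1, fun v hv => (h2.2 v (h1.1 hv)).trans (h1.2 v hv)⟩
  have rRF : ∀ {p q : W}, r p q →
      RF E B (ter A p.1.1 p.1.2 ∪ X) ⊆ RF E B (ter A q.1.1 q.1.2 ∪ X) := by
    intro p q h
    apply RF_sub_of_sub
    rintro v (hv | hv)
    · exact q.2.sub_RF (h.1 hv.1)
    · exact subset_RF (Or.inr hv)
  have hchain : ∀ c : Set W, IsChain r c → ∃ ub, ∀ p ∈ c, r p ub := by
    intro c hc
    rcases c.eq_empty_or_nonempty with rfl | ⟨p0, hp0⟩
    · exact ⟨⟨⟨A \ X, id⟩, isWave_triv⟩, fun p hp => absurd hp (Set.notMem_empty _)⟩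
    set D : Set V := {v | ∃ p ∈ c, v ∈ p.1.1} with hD
    have htot : ∀ p ∈ c, ∀ q ∈ c, r p q ∨ r q p := by
      intro p hp q hq
      by_cases hpq : p = q
      · subst hpq; exact Or.inl (rrefl p)
      · exact hc hp hq hpq
    let m : V → V := fun v => if h : ∃ p ∈ c, v ∈ p.1.1 then h.choose.1.2 v else v
    have hm : ∀ p ∈ c, ∀ v ∈ p.1.1, m v = p.1.2 v := by
      intro p hp v hv
      have h : ∃ p ∈ c, v ∈ p.1.1 := ⟨p, hp, hv⟩
      have hmv : m v = h.choose.1.2 v := by simp only [m, dif_pos h]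
      rw [hmv]
      rcases htot _ h.choose_spec.1 p hp with hr | hr
      · exact (hr.2 v h.choose_spec.2).symm
      · exact hr.2 v hv
    have hwarp : IsWarp E A D m := by
      constructor
      · rintro v ⟨p, hp, hv⟩ hvA
        rw [hm p hp v hv]
        exact ⟨p, hp, p.2.warp.mem v hv hvA⟩
      · rintro v ⟨p, hp, hv⟩ hvA
        rw [hm p hp v hv]
        exact p.2.warp.edge v hv hvA
      · rintro u ⟨p, hp, hu⟩ v ⟨q, hq, hv⟩ huA hvA huv
        rcases htot p hp q hq with hr | hr
        · have hu' := hr.1 hu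
          rw [hm q hq u hu', hm q hq v hv] at huv
          exact q.2.warp.inj u hu' v hv huA hvA huv
        · have hv' := hr.1 hv
          rw [hm p hp u hu, hm p hp v hv'] at huv
          exact p.2.warp.inj u hu v hv' huA hvA huv
      · rintro v ⟨p, hp, hv⟩
        revert v
        refine p.2.warp.induct ?_ ?_
        · intro v _ hvA; exact ⟨0, hvA⟩
        · rintro v hv _ ⟨n, hn⟩
          refine ⟨n + 1, ?_⟩
          rw [Function.iterate_succ_apply, hm p hp v hv]
          exact hn
    -- eventually not terminal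
    have hev : ∀ v, v ∉ ter A D m ∪ X → ∃ p ∈ c, ∀ q ∈ c, r p q → v ∉ ter A q.1.1 q.1.2 ∪ X := by
      intro v hv
      by_cases hvD : v ∈ D
      · have : ∃ u ∈ D, u ∉ A ∧ m u = v := by
          by_contra hcon
          push Not at hcon
          exact hv (Or.inl ⟨hvD, hcon⟩)
        obtain ⟨u, ⟨p, hp, hu⟩, huA, huv⟩ := this
        refine ⟨p, hp, ?_⟩
        rintro q hq hpq (ht | hx)
        · refine ht.2 u (hpq.1 hu) huA ?_
          rw [← hm q hq u (hpq.1 hu)]
          exact huv
        · exact hv (Or.inr hx)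
      · refine ⟨p0, hp0, ?_⟩
        rintro q hq _ (ht | hx)
        · exact hvD ⟨q, hq, ht.1⟩
        · exact hv (Or.inr hx)
    have hesc : ∀ v, Esc E B (ter A D m ∪ X) v →
        ∃ p ∈ c, ∀ q ∈ c, r p q → Esc E B (ter A q.1.1 q.1.2 ∪ X) v := by
      intro v hv
      induction hv with
      | base hB hn =>
        obtain ⟨p, hp, h⟩ := hev _ hn
        exact ⟨p, hp, fun q hq hpq => Esc.base hB (h q hq hpq)⟩
      | step hn hE _ ih =>
        obtain ⟨p, hp, h⟩ := hev _ hn
        obtain ⟨p', hp', h'⟩ := ih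
        rcases htot p hp p' hp' with hr | hr
        · exact ⟨p', hp', fun q hq hpq => Esc.step (h q hq (rtrans hr hpq)) hE (h' q hq hpq)⟩
        · exact ⟨p, hp, fun q hq hpq => Esc.step (h q hq hpq) hE (h' q hq (rtrans hr hpq))⟩
    have hwave : IsWave E A B X D m := by
      refine ⟨hwarp, ?_, ?_⟩
      · rw [Set.disjoint_left]
        rintro v ⟨p, _, hv⟩ hx
        exact Set.disjoint_left.1 p.2.disj hv hx
      · intro a ha hesca
        obtain ⟨p, hp, h⟩ := hesc a hesca
        exact p.2.roof ha (h p hp (rrefl p))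
    exact ⟨⟨⟨D, m⟩, hwave⟩, fun p hp => ⟨fun v hv => ⟨p, hp, hv⟩, hm p hp⟩⟩
  obtain ⟨p, hp⟩ := exists_maximal_of_chains_bounded hchain (fun {a b c} => rtrans)
  refine ⟨p.1.1, p.1.2, p.2, ?_⟩
  apply Set.Subset.antisymm
  · exact p.2.sub_cl
  · rintro v ⟨D', m', h', hv⟩
    obtain ⟨D'', m'', h'', hD, hm, _, h2⟩ := p.2.arrow h' Set.Subset.rfl
      (Set.subset_union_right.trans subset_RF)
    have := hp ⟨⟨D'', m''⟩, h''⟩ ⟨hD, hm⟩
    exact rRF (p := ⟨⟨D'', m''⟩, h''⟩) (q := p) this (h2 hv)

/-- `(S2)`: enlarging `X` inside its closure does not enlarge the closure. -/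
theorem cl_sub_cl (hX : X ⊆ X') (hX' : X' ⊆ cl E A B X) : cl E A B X' ⊆ cl E A B X := by
  obtain ⟨D, m, hw, hcl⟩ := exists_max_wave E A B X
  rintro v ⟨D', m', h', hv⟩
  obtain ⟨D'', m'', h'', _, _, _, h2⟩ := hw.arrow h' hX (by rw [hcl]; exact hX')
  exact h''.sub_cl (h2 hv)

/-- `(M)` -/
theorem IsWave.of_disjoint (h : IsWave E A B X D m) (hX : X ⊆ X') (hd : Disjoint D X') :
    IsWave E A B X' D m :=
  ⟨h.warp, hd, h.roof.trans (RF_mono (Set.union_subset_union_right _ hX))⟩

/-- `(U')` -/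
theorem RF_restrict {T : Set V}
    (h : ∀ v ∈ X', v ∉ X → v ∉ B ∧ ∀ w, E v w → w ∈ RF E B (T ∪ X')) :
    RF E B (T ∪ X') ⊆ RF E B (T ∪ X) := by
  apply closed_sub_RF
  · intro v hv hvT w hE
    by_cases hvX : v ∈ X'
    · exact (h v hvX (fun h => hvT (Or.inr h))).2 w hE
    · exact RF_step hv (by rintro (h | h); exacts [hvT (Or.inl h), hvX h]) hE
  · intro v hv hvB
    rcases RF_mem_of_B hv hvB with h' | h'
    · exact Or.inl h'
    · by_contra hc
      exact (h v h' (fun h => hc (Or.inr h))).1 hvB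

theorem IsWave.restrict (h : IsWave E A B X' D m) (hX : X ⊆ X')
    (hh : ∀ v ∈ X', v ∉ X → v ∉ B ∧ ∀ w, E v w → w ∈ RF E B (ter A D m ∪ X')) :
    IsWave E A B X D m :=
  ⟨h.warp, h.disj.mono_right hX, h.roof.trans (RF_restrict hh)⟩

/-- A terminal vertex outside `A` of a wave cannot be removed. -/
theorem IsWave.not_ter {x : V} (h : IsWave E A B X D m) (hx : x ∉ A)
    (hadm : Adm E A B (insert x X)) : x ∉ ter A D m := by
  intro hxt
  obtain ⟨a, ha, hpa⟩ := h.warp.start hxt.1
  have hwave : IsWave E A B (insert x X) (D \ {v | OnPath A m x v}) m := by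
    refine ⟨h.warp.remove hxt, ?_, ?_⟩
    · rw [Set.disjoint_left]
      rintro v ⟨hv, hvp⟩ hvx
      rcases hvx with rfl | hvx
      · exact hvp OnPath.refl
      · exact Set.disjoint_left.1 h.disj hv hvx
    · refine h.roof.trans (RF_mono ?_)
      rintro v (hv | hv)
      · by_cases hvx : v = x
        · exact Or.inr (Or.inl hvx)
        · exact Or.inl (h.warp.remove_ter hxt ⟨hv, hvx⟩)
      · exact Or.inr (Or.inr hv)
  have haD : a ∈ D := h.warp.onPath_mem hxt.1 hpa
  have : a ∈ D \ {v | OnPath A m x v} := by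
    apply hadm _ _ hwave
    refine ⟨ha, ?_⟩
    rintro (rfl | hax)
    · exact hx ha
    · exact Set.disjoint_left.1 h.disj haD hax
  exact this.2 hpa

end

end Pool.Webs
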